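import Pool.Agent.KS6_13.EH.Sem

/-!
# Operations on real-time transducers
-/

set_option autoImplicit false

namespace Pool.Agent.KS6_13.EH

variable {α β γ : Type}

/-! ### runs -/

theorem RT.run_nil_iff (T : RT α β) (q r : T.Q) (u : List β) :
    T.Run q [] u r ↔ u = [] ∧ r = q := by
  constructor
  · intro h
    cases h
    exact ⟨rfl, rfl⟩
  · rintro ⟨rfl, rfl⟩
    exact RT.Run.nil _

theorem RT.run_cons_iff (T : RT α β) (q s : T.Q) (a : α) (w : List α) (u : List β) :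
    T.Run q (a :: w) u s ↔ ∃ r u₁ u₂, (r, u₁) ∈ T.δ q a ∧ u = u₁ ++ u₂ ∧ T.Run r w u₂ s := by
  constructor
  · intro h
    cases h with
    | cons h1 h2 => exact ⟨_, _, _, h1, rfl, h2⟩
  · rintro ⟨r, u₁, u₂, h1, rfl, h2⟩
    exact RT.Run.cons h1 h2

theorem RT.Run.append {T : RT α β} {q r s : T.Q} {w w' : List α} {u u' : List β}
    (h : T.Run q w u r) (h' : T.Run r w' u' s) : T.Run q (w ++ w') (u ++ u') s := by
  induction h with
  | nil q => exact h'
  | cons h1 h2 ih =>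
    rw [List.cons_append, List.append_assoc]
    exact RT.Run.cons h1 (ih h')

theorem RT.run_append_iff (T : RT α β) (q s : T.Q) (w₁ w₂ : List α) (u : List β) :
    T.Run q (w₁ ++ w₂) u s ↔
      ∃ r u₁ u₂, u = u₁ ++ u₂ ∧ T.Run q w₁ u₁ r ∧ T.Run r w₂ u₂ s := by
  constructor
  · intro h
    induction w₁ generalizing q u with
    | nil => exact ⟨q, [], u, rfl, RT.Run.nil q, h⟩
    | cons a w₁ ih =>
      rw [List.cons_append, T.run_cons_iff] at h
      obtain ⟨r, u₁, u₂, h1, rfl, h2⟩ := h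
      obtain ⟨r', u₃, u₄, rfl, h3, h4⟩ := ih r u₂ h2
      exact ⟨r', u₁ ++ u₃, u₄, by rw [List.append_assoc], RT.Run.cons h1 h3, h4⟩
  · rintro ⟨r, u₁, u₂, rfl, h1, h2⟩
    exact h1.append h2

theorem RT.run_fin (T : RT α β) (q : T.Q) (w : List α) :
    {p : T.Q × List β | T.Run q w p.2 p.1}.Finite := by
  induction w generalizing q with
  | nil =>
    refine (Set.finite_singleton (q, ([] : List β))).subset ?_
    rintro ⟨r, u⟩ h
    obtain ⟨rfl, rfl⟩ := (T.run_nil_iff q r u).1 h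
    rfl
  | cons a w ih =>
    have h1 : (⋃ p ∈ T.δ q a, (fun p' : T.Q × List β => (p'.1, p.2 ++ p'.2)) ''
        {p' : T.Q × List β | T.Run p.1 w p'.2 p'.1}).Finite :=
      (T.fin q a).biUnion fun p _ => (ih p.1).image _
    refine h1.subset ?_
    rintro ⟨s, u⟩ h
    obtain ⟨r, u₁, u₂, h2, h3, h4⟩ := (T.run_cons_iff q s a w u).1 h
    simp only [Set.mem_iUnion]
    refine ⟨(r, u₁), h2, (s, u₂), h4, ?_⟩
    show (s, u₁ ++ u₂) = (s, u)
    rw [← h3]

/-! ### composition -/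

/-- the composition -/
def RT.comp (T' : RT α β) (T : RT β γ) : RT α γ where
  Q := T'.Q × T.Q
  finQ := by have := T'.finQ; have := T.finQ; infer_instance
  δ := fun q a => {p | ∃ u, (p.1.1, u) ∈ T'.δ q.1 a ∧ T.Run q.2 u p.2 p.1.2}
  fin := by
    rintro ⟨q', q⟩ a
    have h1 : (⋃ p ∈ T'.δ q' a, (fun p' : T.Q × List γ => ((p.1, p'.1), p'.2)) ''
        {p' : T.Q × List γ | T.Run q p.2 p'.2 p'.1}).Finite :=
      (T'.fin q' a).biUnion fun p _ => (T.run_fin q p.2).image _
    refine h1.subset ?_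
    rintro ⟨⟨r', r⟩, v⟩ ⟨u, h2, h3⟩
    simp only [Set.mem_iUnion]
    exact ⟨(r', u), h2, (r, v), h3, rfl⟩
  I := {q | q.1 ∈ T'.I ∧ q.2 ∈ T.I}
  F := {q | q.1 ∈ T'.F ∧ q.2 ∈ T.F}

theorem RT.comp_run (T' : RT α β) (T : RT β γ) (w : List α) (v : List γ) (q' r' : T'.Q)
    (q r : T.Q) : (T'.comp T).Run ((q', q) : T'.Q × T.Q) w v ((r', r) : T'.Q × T.Q) ↔
      ∃ u, T'.Run q' w u r' ∧ T.Run q u v r := by
  induction w generalizing q' q v with
  | nil =>
    refine (RT.run_nil_iff _ _ _ _).trans ?_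
    constructor
    · rintro ⟨rfl, h⟩
      obtain ⟨h1, h2⟩ := Prod.ext_iff.1 h
      simp only at h1 h2
      subst h1 h2
      exact ⟨[], RT.Run.nil _, RT.Run.nil _⟩
    · rintro ⟨u, h1, h2⟩
      obtain ⟨rfl, rfl⟩ := (T'.run_nil_iff _ _ _).1 h1
      obtain ⟨rfl, rfl⟩ := (T.run_nil_iff _ _ _).1 h2
      exact ⟨rfl, rfl⟩
  | cons a w ih =>
    refine (RT.run_cons_iff _ _ _ _ _ _).trans ?_
    constructor
    · rintro ⟨⟨s', s⟩, v₁, v₂, ⟨u₁, h1, h2⟩, rfl, h3⟩
      obtain ⟨u₂, h4, h5⟩ := (ih v₂ s' s).1 h3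
      exact ⟨u₁ ++ u₂, RT.Run.cons h1 h4, h2.append h5⟩
    · rintro ⟨u, h1, h2⟩
      obtain ⟨s', u₁, u₂, h3, rfl, h4⟩ := (T'.run_cons_iff _ _ _ _ _).1 h1
      obtain ⟨s, v₁, v₂, rfl, h5, h6⟩ := (T.run_append_iff _ _ _ _ _).1 h2
      exact ⟨((s', s) : T'.Q × T.Q), v₁, v₂, ⟨u₁, h3, h5⟩, rfl, (ih v₂ s' s).2 ⟨u₂, h4, h6⟩⟩

theorem RT.comp_pre (T' : RT α β) (T : RT β γ) (L : Set (List γ)) :
    (T'.comp T).pre L = T'.pre (T.pre L) := by
  ext w
  constructor
  · rintro ⟨⟨q', q⟩, ⟨h1, h2⟩, ⟨r', r⟩, ⟨h3, h4⟩, v, hv, h5⟩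
    obtain ⟨u, h6, h7⟩ := (RT.comp_run T' T w v q' r' q r).1 h5
    exact ⟨q', h1, r', h3, u, ⟨q, h2, r, h4, v, hv, h7⟩, h6⟩
  · rintro ⟨q', h1, r', h3, u, ⟨q, h2, r, h4, v, hv, h7⟩, h6⟩
    exact ⟨((q', q) : T'.Q × T.Q), ⟨h1, h2⟩, ((r', r) : T'.Q × T.Q), ⟨h3, h4⟩, v, hv,
      (RT.comp_run T' T w v q' r' q r).2 ⟨u, h6, h7⟩⟩

/-! ### homomorphisms and regular languages -/

/-- A homomorphism is a real-time transducer with one state. -/
def ofHom (h : α → List β) : RT α β where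
  Q := Unit
  finQ := inferInstance
  δ := fun _ a => {((), h a)}
  fin := fun _ _ => Set.finite_singleton _
  I := Set.univ
  F := Set.univ

theorem ofHom_run (h : α → List β) (w : List α) (u : List β) (q r : (ofHom h).Q) :
    (ofHom h).Run q w u r ↔ u = w.flatMap h := by
  constructor
  · intro h'
    induction h' with
    | nil q => rfl
    | @cons q r s a w u v h1 h2 ih =>
      have h3 : u = h a := (Prod.ext_iff.1 (show (r, u) = ((), h a) from h1)).2
      rw [h3, ih, List.flatMap_cons]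
  · rintro rfl
    induction w generalizing q with
    | nil => exact RT.Run.nil q
    | cons a w ih =>
      rw [List.flatMap_cons]
      have h1 : (((), h a) : (ofHom h).Q × List β) ∈ (ofHom h).δ q a :=
        Set.mem_singleton _
      exact RT.Run.cons h1 (ih _)

theorem ofHom_pre (h : α → List β) (L : Set (List β)) :
    (ofHom h).pre L = {w | w.flatMap h ∈ L} := by
  ext w
  constructor
  · rintro ⟨q, -, r, -, u, hu, h1⟩
    have h2 := (ofHom_run h w u q r).1 h1
    subst h2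
    exact hu
  · intro hw
    exact ⟨(), trivial, (), trivial, _, hw, (ofHom_run h w _ () ()).2 rfl⟩

theorem ofHom_card (h : α → List β) : Nat.card (ofHom h).Q = 1 := by
  show Nat.card Unit = 1
  simp

/-- the intersection with the language of a finite automaton -/
def ofDFA {σ : Type} [Finite σ] (M : DFA α σ) : RT α α where
  Q := σ
  finQ := inferInstance
  δ := fun q a => {(M.step q a, [a])}
  fin := fun _ _ => Set.finite_singleton _
  I := {M.start}
  F := M.accept

theorem ofDFA_run {σ : Type} [Finite σ] (M : DFA α σ) (w u : List α) (q r : σ) :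
    (ofDFA M).Run q w u r ↔ u = w ∧ r = M.evalFrom q w := by
  induction w generalizing q u with
  | nil => exact RT.run_nil_iff _ _ _ _
  | cons a w ih =>
    refine (RT.run_cons_iff _ _ _ _ _ _).trans ?_
    constructor
    · rintro ⟨s, u₁, u₂, h1, rfl, h2⟩
      obtain ⟨rfl, h3⟩ := (ih u₂ s).1 h2
      obtain ⟨h4, h5⟩ := Prod.ext_iff.1 (show (s, u₁) = (M.step q a, [a]) from h1)
      simp only at h4 h5
      subst h4 h5
      exact ⟨rfl, h3⟩
    · rintro ⟨rfl, h⟩
      exact ⟨M.step q a, [a], w, Set.mem_singleton _, rfl, (ih w _).2 ⟨rfl, h⟩⟩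

theorem ofDFA_pre {σ : Type} [Finite σ] (M : DFA α σ) (L : Set (List α)) :
    (ofDFA M).pre L = {w | w ∈ L ∧ w ∈ M.accepts} := by
  ext w
  constructor
  · rintro ⟨q, hq, r, hr, u, hu, h1⟩
    obtain ⟨rfl, h2⟩ := (ofDFA_run M w u q r).1 h1
    have hq' : q = M.start := hq
    subst hq'
    exact ⟨hu, show M.evalFrom M.start u ∈ M.accept from h2 ▸ hr⟩
  · rintro ⟨h1, h2⟩
    exact ⟨M.start, rfl, M.evalFrom M.start w, h2, w, h1, (ofDFA_run M w w _ _).2 ⟨rfl, rfl⟩⟩

theorem suff_fin [Finite α] (g : α → List β) :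
    Finite {x : List β // x = [] ∨ ∃ a, x <:+ g a} := by
  have h : ({x : List β | x = [] ∨ ∃ a, x <:+ g a}).Finite := by
    have h1 : ({([] : List β)} ∪ ⋃ a, {x : List β | x ∈ (g a).tails}).Finite :=
      (Set.finite_singleton _).union (Set.finite_iUnion fun a => List.finite_toSet _)
    refine h1.subset ?_
    rintro x (rfl | ⟨a, ha⟩)
    · exact Or.inl rfl
    · exact Or.inr (Set.mem_iUnion.2 ⟨a, (List.mem_tails _ _).2 ha⟩)
  exact h.to_subtype

/-- the image under a nonerasing homomorphism -/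
def ofImg [Finite α] (g : α → List β) : RT β α where
  Q := {x : List β // x = [] ∨ ∃ a, x <:+ g a}
  finQ := suff_fin g
  δ := fun q b => {p | (q.1 = b :: p.1.1 ∧ p.2 = []) ∨
    (q.1 = [] ∧ ∃ a, g a = b :: p.1.1 ∧ p.2 = [a])}
  fin := by
    intro q b
    have := suff_fin g
    have h1 : ((Set.univ : Set {x : List β // x = [] ∨ ∃ a, x <:+ g a}) ×ˢ
        (insert [] (Set.range fun a : α => [a]))).Finite :=
      Set.finite_univ.prod ((Set.finite_range _).insert _)
    refine h1.subset ?_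
    rintro ⟨r, u⟩ (⟨-, h⟩ | ⟨-, a, -, h⟩)
    · exact ⟨trivial, Or.inl h⟩
    · exact ⟨trivial, Or.inr ⟨a, h.symm⟩⟩
  I := {q | q.1 = []}
  F := {q | q.1 = []}

/-- what the transducer reads and writes -/
theorem ofImg_run [Finite α] (g : α → List β) (hg : ∀ a, g a ≠ []) (w : List β) (u : List α)
    (q r : {x : List β // x = [] ∨ ∃ a, x <:+ g a}) (hr : r.1 = []) :
    (ofImg g).Run q w u r ↔ w = q.1 ++ u.flatMap g := by
  induction w generalizing q u with
  | nil =>
    refine (RT.run_nil_iff _ _ _ _).trans ?_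
    constructor
    · rintro ⟨rfl, rfl⟩
      rw [hr]
      rfl
    · intro h
      obtain ⟨h1, h2⟩ := List.append_eq_nil_iff.1 h.symm
      refine ⟨?_, Subtype.ext (by rw [hr, h1])⟩
      cases u with
      | nil => rfl
      | cons a u =>
        rw [List.flatMap_cons] at h2
        exact absurd (List.append_eq_nil_iff.1 h2).1 (hg a)
  | cons b w ih =>
    refine (RT.run_cons_iff _ _ _ _ _ _).trans ?_
    constructor
    · rintro ⟨s, u₁, u₂, (⟨h1, h2⟩ | ⟨h1, a, h2, h3⟩), rfl, h4⟩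
      · have h2' : u₁ = [] := h2
        subst h2'
        have h1' : q.1 = b :: s.1 := h1
        rw [h1', (ih u₂ s).1 h4]
        rfl
      · have h3' : u₁ = [a] := h3
        subst h3'
        have h1' : q.1 = [] := h1
        have h2' : g a = b :: s.1 := h2
        rw [h1', (ih u₂ s).1 h4, List.singleton_append, List.flatMap_cons, h2']
        rfl
    · intro h
      obtain ⟨x, hx⟩ := q
      cases x with
      | nil =>
        cases u with
        | nil => simp at h
        | cons a u =>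
          rw [List.flatMap_cons] at h
          cases hga : g a with
          | nil => exact absurd hga (hg a)
          | cons b' y =>
            rw [hga] at h
            simp only [List.nil_append, List.cons_append, List.cons.injEq] at h
            obtain ⟨rfl, h⟩ := h
            have hy : y = [] ∨ ∃ a, y <:+ g a := Or.inr ⟨a, by rw [hga]; exact List.suffix_cons _ _⟩
            exact ⟨⟨y, hy⟩, [a], u, Or.inr ⟨rfl, a, hga, rfl⟩, rfl, (ih u ⟨y, hy⟩).2 h⟩
      | cons b' y =>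
        simp only [List.cons_append, List.cons.injEq] at h
        obtain ⟨rfl, h⟩ := h
        have hy : y = [] ∨ ∃ a, y <:+ g a := by
          rcases hx with hx | ⟨a, ha⟩
          · simp at hx
          · exact Or.inr ⟨a, (List.suffix_cons _ _).trans ha⟩
        exact ⟨⟨y, hy⟩, [], u, Or.inl ⟨rfl, rfl⟩, rfl, (ih u ⟨y, hy⟩).2 h⟩

theorem ofImg_pre [Finite α] (g : α → List β) (hg : ∀ a, g a ≠ []) (L : Set (List α)) :
    (ofImg g).pre L = {w | ∃ u ∈ L, w = u.flatMap g} := by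
  ext w
  constructor
  · rintro ⟨q, hq, r, hr, u, hu, h1⟩
    have hq' : q.1 = [] := hq
    have h2 := (ofImg_run g hg w u q r hr).1 h1
    rw [hq'] at h2
    exact ⟨u, hu, h2⟩
  · rintro ⟨u, hu, h⟩
    exact ⟨⟨[], Or.inl rfl⟩, rfl, ⟨[], Or.inl rfl⟩, rfl, u, hu,
      (ofImg_run g hg w u ⟨[], Or.inl rfl⟩ ⟨[], Or.inl rfl⟩ rfl).2 h⟩

end Pool.Agent.KS6_13.EH
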