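import Pool.Agent.KS6_13.EH.Afl

/-!
# Union, concatenation and plus
-/

set_option autoImplicit false

namespace Pool.Agent.KS6_13.EH

variable {α β : Type}

theorem RT.run_map {T T' : RT α β} (f : T.Q → T'.Q)
    (hf : ∀ q a p, p ∈ T.δ q a → (f p.1, p.2) ∈ T'.δ (f q) a) {q r : T.Q} {w : List α}
    {u : List β} (h : T.Run q w u r) : T'.Run (f q) w u (f r) := by
  induction h with
  | nil q => exact RT.Run.nil _
  | cons h1 h2 ih => exact RT.Run.cons (hf _ _ _ h1) ih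

theorem RT.run_of_map {T T' : RT α β} (f : T.Q → T'.Q)
    (hf : ∀ q a p', p' ∈ T'.δ (f q) a → ∃ p ∈ T.δ q a, p' = (f p.1, p.2)) {q : T.Q}
    {s : T'.Q} {w : List α} {u : List β} (h : T'.Run (f q) w u s) :
    ∃ r, s = f r ∧ T.Run q w u r := by
  induction w generalizing q u with
  | nil =>
    obtain ⟨rfl, rfl⟩ := (T'.run_nil_iff _ _ _).1 h
    exact ⟨q, rfl, RT.Run.nil _⟩
  | cons a w ih =>
    obtain ⟨r', u₁, u₂, h1, rfl, h2⟩ := (T'.run_cons_iff _ _ _ _ _).1 h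
    obtain ⟨p, h3, h4⟩ := hf q a _ h1
    obtain ⟨h5, h6⟩ := Prod.ext_iff.1 h4
    simp only at h5 h6
    subst h5 h6
    obtain ⟨r, rfl, h7⟩ := ih h2
    exact ⟨r, rfl, RT.Run.cons h3 h7⟩

/-! ### end markers -/

section clean

variable (E : β → Prop)

/-- empty, or ending with a letter in `E` -/
def Endy (u : List β) : Prop := ∀ x ∈ u.getLast?, E x

theorem endy_nil : Endy E [] := by
  intro x hx
  simp at hx

theorem endy_append {u v : List β} (hv : v ≠ []) : Endy E (u ++ v) ↔ Endy E v := by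
  unfold Endy
  rw [List.getLast?_append_of_ne_nil _ hv]

/-- the record -/
def upd (b : Prop) (u : List β) : Prop := (u = [] ∧ b) ∨ (u ≠ [] ∧ Endy E u)

theorem upd_nil (b : Prop) : upd E b [] = b := by
  simp [upd]

theorem upd_upd (b : Prop) (u v : List β) : upd E (upd E b u) v = upd E b (u ++ v) := by
  by_cases hv : v = []
  · subst hv
    simp [upd]
  · by_cases hu : u = []
    · subst hu
      simp [upd, hv]
    · simp [upd, hu, hv, endy_append E hv]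

theorem upd_true (u : List β) : upd E True u = Endy E u := by
  by_cases hu : u = []
  · subst hu
    simp [upd, endy_nil]
  · simp [upd, hu]

/-- the transducer which records whether its output is empty or ends with a letter in `E` -/
def RT.clean (T : RT α β) : RT α β where
  Q := T.Q × Prop
  finQ := by have := T.finQ; infer_instance
  δ := fun q a => (fun p : T.Q × List β => ((p.1, upd E q.2 p.2), p.2)) '' T.δ q.1 a
  fin := fun q a => (T.fin q.1 a).image _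
  I := {q | q.1 ∈ T.I ∧ q.2 = True}
  F := {q | q.1 ∈ T.F ∧ q.2 = True}

theorem RT.clean_run (T : RT α β) (q r : T.Q) (b b' : Prop) (w : List α) (u : List β) :
    (T.clean E).Run ((q, b) : T.Q × Prop) w u ((r, b') : T.Q × Prop) ↔
      T.Run q w u r ∧ b' = upd E b u := by
  induction w generalizing q b u with
  | nil =>
    refine (RT.run_nil_iff _ _ _ _).trans ?_
    constructor
    · rintro ⟨rfl, h⟩
      obtain ⟨h1, h2⟩ := Prod.ext_iff.1 h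
      simp only at h1 h2
      subst h1 h2
      exact ⟨RT.Run.nil _, (upd_nil E _).symm⟩
    · rintro ⟨h1, h2⟩
      obtain ⟨rfl, rfl⟩ := (T.run_nil_iff _ _ _).1 h1
      rw [upd_nil] at h2
      subst h2
      exact ⟨rfl, rfl⟩
  | cons a w ih =>
    refine (RT.run_cons_iff _ _ _ _ _ _).trans ?_
    constructor
    · rintro ⟨s, u₁, u₂, ⟨p, h1, h2⟩, rfl, h3⟩
      obtain ⟨h4, h5⟩ := Prod.ext_iff.1 h2
      simp only at h4 h5
      subst h4 h5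
      obtain ⟨h6, h7⟩ := (ih _ _ _).1 h3
      exact ⟨RT.Run.cons h1 h6, by rw [h7, upd_upd]⟩
    · rintro ⟨h1, h2⟩
      obtain ⟨s, u₁, u₂, h3, rfl, h4⟩ := (T.run_cons_iff _ _ _ _ _).1 h1
      exact ⟨((s, upd E b u₁) : T.Q × Prop), u₁, u₂, ⟨(s, u₁), h3, rfl⟩, rfl,
        (ih s _ u₂).2 ⟨h4, by rw [h2, upd_upd]⟩⟩

/-- all outputs of accepting runs are empty or end with a letter in `E` -/
def RT.IsClean (T : RT α β) : Prop :=
  ∀ q ∈ T.I, ∀ r ∈ T.F, ∀ w u, T.Run q w u r → Endy E u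

theorem RT.clean_isClean (T : RT α β) : (T.clean E).IsClean E := by
  rintro ⟨q, b⟩ ⟨-, h1⟩ ⟨r, b'⟩ ⟨-, h2⟩ w u h
  have h3 := ((RT.clean_run E T q r b b' w u).1 h).2
  simp only at h1 h2
  subst h1
  rw [h2, upd_true] at h3
  rw [← h3]
  trivial

theorem RT.clean_pre (T : RT α β) {S : Set (List β)} (hE : ∀ u ∈ S, Endy E u) :
    (T.clean E).pre S = T.pre S := by
  ext w
  constructor
  · rintro ⟨⟨q, b⟩, ⟨h1, h2⟩, ⟨r, b'⟩, ⟨h3, h4⟩, u, hu, h⟩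
    exact ⟨q, h1, r, h3, u, hu, ((RT.clean_run E T q r b b' w u).1 h).1⟩
  · rintro ⟨q, h1, r, h2, u, hu, h⟩
    refine ⟨((q, True) : T.Q × Prop), ⟨h1, rfl⟩, ((r, True) : T.Q × Prop), ⟨h2, rfl⟩, u, hu,
      (RT.clean_run E T q r True True w u).2 ⟨h, ?_⟩⟩
    rw [upd_true]
    exact (eq_true (hE u hu)).symm

end clean

/-! ### union -/

/-- the union -/
def RT.sum (T₁ T₂ : RT α β) : RT α β where
  Q := T₁.Q ⊕ T₂.Q
  finQ := by have := T₁.finQ; have := T₂.finQ; infer_instance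
  δ := fun q a => match q with
    | Sum.inl q => (fun p : T₁.Q × List β => (Sum.inl p.1, p.2)) '' T₁.δ q a
    | Sum.inr q => (fun p : T₂.Q × List β => (Sum.inr p.1, p.2)) '' T₂.δ q a
  fin := by
    rintro (q | q) a
    · exact (T₁.fin q a).image _
    · exact (T₂.fin q a).image _
  I := Sum.inl '' T₁.I ∪ Sum.inr '' T₂.I
  F := Sum.inl '' T₁.F ∪ Sum.inr '' T₂.F

theorem RT.sum_pre (T₁ T₂ : RT α β) (S : Set (List β)) :
    (T₁.sum T₂).pre S = T₁.pre S ∪ T₂.pre S := by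
  have e1 : ∀ (q : T₁.Q) (s : T₁.Q ⊕ T₂.Q) (w : List α) (u : List β),
      (T₁.sum T₂).Run (Sum.inl q : T₁.Q ⊕ T₂.Q) w u s → ∃ r, s = Sum.inl r ∧ T₁.Run q w u r := by
    intro q s w u h
    refine RT.run_of_map (T := T₁) (T' := T₁.sum T₂) (fun q => (Sum.inl q : T₁.Q ⊕ T₂.Q)) ?_ h
    rintro q a p' ⟨p, h1, rfl⟩
    exact ⟨p, h1, rfl⟩
  have e2 : ∀ (q : T₂.Q) (s : T₁.Q ⊕ T₂.Q) (w : List α) (u : List β),
      (T₁.sum T₂).Run (Sum.inr q : T₁.Q ⊕ T₂.Q) w u s → ∃ r, s = Sum.inr r ∧ T₂.Run q w u r := by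
    intro q s w u h
    refine RT.run_of_map (T := T₂) (T' := T₁.sum T₂) (fun q => (Sum.inr q : T₁.Q ⊕ T₂.Q)) ?_ h
    rintro q a p' ⟨p, h1, rfl⟩
    exact ⟨p, h1, rfl⟩
  ext w
  constructor
  · rintro ⟨q, (⟨q, h1, rfl⟩ | ⟨q, h1, rfl⟩), s, h2, u, hu, h⟩
    · obtain ⟨r, rfl, h3⟩ := e1 _ _ _ _ h
      rcases h2 with ⟨r', h2, h4⟩ | ⟨r', h2, h4⟩
      · exact Or.inl ⟨q, h1, r, Sum.inl_injective h4 ▸ h2, u, hu, h3⟩
      · simp at h4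
    · obtain ⟨r, rfl, h3⟩ := e2 _ _ _ _ h
      rcases h2 with ⟨r', h2, h4⟩ | ⟨r', h2, h4⟩
      · simp at h4
      · exact Or.inr ⟨q, h1, r, Sum.inr_injective h4 ▸ h2, u, hu, h3⟩
  · rintro (⟨q, h1, r, h2, u, hu, h⟩ | ⟨q, h1, r, h2, u, hu, h⟩)
    · exact ⟨(Sum.inl q : T₁.Q ⊕ T₂.Q), Or.inl ⟨q, h1, rfl⟩, (Sum.inl r : T₁.Q ⊕ T₂.Q),
        Or.inl ⟨r, h2, rfl⟩, u, hu, RT.run_map (T := T₁) (T' := T₁.sum T₂)
          (fun q => (Sum.inl q : T₁.Q ⊕ T₂.Q)) (fun q a p hp => ⟨p, hp, rfl⟩) h⟩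
    · exact ⟨(Sum.inr q : T₁.Q ⊕ T₂.Q), Or.inr ⟨q, h1, rfl⟩, (Sum.inr r : T₁.Q ⊕ T₂.Q),
        Or.inr ⟨r, h2, rfl⟩, u, hu, RT.run_map (T := T₂) (T' := T₁.sum T₂)
          (fun q => (Sum.inr q : T₁.Q ⊕ T₂.Q)) (fun q a p hp => ⟨p, hp, rfl⟩) h⟩

/-! ### concatenation -/

/-- the concatenation -/
def RT.cat (T₁ T₂ : RT α β) : RT α β where
  Q := T₁.Q ⊕ T₂.Q
  finQ := by have := T₁.finQ; have := T₂.finQ; infer_instance
  δ := fun q a => match q with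
    | Sum.inl q => (fun p : T₁.Q × List β => (Sum.inl p.1, p.2)) '' T₁.δ q a ∪
        {p | q ∈ T₁.F ∧ ∃ i ∈ T₂.I, p ∈ (fun p : T₂.Q × List β => (Sum.inr p.1, p.2)) '' T₂.δ i a}
    | Sum.inr q => (fun p : T₂.Q × List β => (Sum.inr p.1, p.2)) '' T₂.δ q a
  fin := by
    have := T₂.finQ
    rintro (q | q) a
    · refine ((T₁.fin q a).image _).union ?_
      refine (Set.finite_iUnion fun i : T₂.Q => (T₂.fin i a).image
        (fun p : T₂.Q × List β => ((Sum.inr p.1, p.2) : (T₁.Q ⊕ T₂.Q) × List β))).subset ?_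
      rintro p ⟨-, i, -, h⟩
      exact Set.mem_iUnion.2 ⟨i, h⟩
    · exact (T₂.fin q a).image _
  I := Sum.inl '' T₁.I
  F := Sum.inr '' T₂.F ∪ {s | ∃ f ∈ T₁.F, (∃ i ∈ T₂.I, i ∈ T₂.F) ∧ s = Sum.inl f}

theorem RT.cat_inr (T₁ T₂ : RT α β) (q : T₂.Q) (s : T₁.Q ⊕ T₂.Q) (w : List α) (u : List β)
    (h : (T₁.cat T₂).Run (Sum.inr q : T₁.Q ⊕ T₂.Q) w u s) :
    ∃ r, s = Sum.inr r ∧ T₂.Run q w u r := by
  refine RT.run_of_map (T := T₂) (T' := T₁.cat T₂) (fun q => (Sum.inr q : T₁.Q ⊕ T₂.Q)) ?_ h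
  rintro q a p' ⟨p, h1, rfl⟩
  exact ⟨p, h1, rfl⟩

theorem RT.cat_fwd (T₁ T₂ : RT α β) (q : T₁.Q) (s : T₁.Q ⊕ T₂.Q) (w : List α) (u : List β)
    (h : (T₁.cat T₂).Run (Sum.inl q : T₁.Q ⊕ T₂.Q) w u s) (hs : s ∈ (T₁.cat T₂).F) :
    ∃ f ∈ T₁.F, ∃ w₁ u₁ w₂ u₂, T₁.Run q w₁ u₁ f ∧
      (∃ i ∈ T₂.I, ∃ r ∈ T₂.F, T₂.Run i w₂ u₂ r) ∧ w = w₁ ++ w₂ ∧ u = u₁ ++ u₂ := by
  induction w generalizing q u with
  | nil =>
    obtain ⟨rfl, rfl⟩ := (RT.run_nil_iff _ _ _ _).1 h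
    rcases hs with ⟨r, -, hr⟩ | ⟨f, hf, ⟨i, hi, hi'⟩, h1⟩
    · simp at hr
    · have h1' := Sum.inl_injective h1
      subst h1'
      exact ⟨q, hf, [], [], [], [], RT.Run.nil _, ⟨i, hi, i, hi', RT.Run.nil _⟩, rfl, rfl⟩
  | cons a w ih =>
    obtain ⟨s', u₁, u₂, h1, rfl, h2⟩ := (RT.run_cons_iff _ _ _ _ _ _).1 h
    rcases h1 with ⟨p, h3, h4⟩ | ⟨h3, i, h4, p, h5, h6⟩
    · obtain ⟨h5, h6⟩ := Prod.ext_iff.1 h4
      simp only at h5 h6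
      subst h5 h6
      obtain ⟨f, h7, w₁, u₃, w₂, u₄, h8, h9, rfl, rfl⟩ := ih _ _ h2
      exact ⟨f, h7, a :: w₁, p.2 ++ u₃, w₂, u₄, RT.Run.cons h3 h8, h9, rfl,
        by rw [List.append_assoc]⟩
    · obtain ⟨h7, h8⟩ := Prod.ext_iff.1 h6
      simp only at h7 h8
      subst h7 h8
      obtain ⟨r, rfl, h9⟩ := RT.cat_inr T₁ T₂ _ _ _ _ h2
      have h10 : r ∈ T₂.F := by
        rcases hs with ⟨r', h11, h12⟩ | ⟨f, -, -, h12⟩
        · exact Sum.inr_injective h12 ▸ h11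
        · simp at h12
      exact ⟨q, h3, [], [], a :: w, p.2 ++ u₂, RT.Run.nil _,
        ⟨i, h4, r, h10, RT.Run.cons h5 h9⟩, rfl, rfl⟩

theorem RT.cat_bwd (T₁ T₂ : RT α β) (q f : T₁.Q) (i r : T₂.Q) (w₁ w₂ : List α) (u₁ u₂ : List β)
    (h : T₁.Run q w₁ u₁ f) (hf : f ∈ T₁.F) (hi : i ∈ T₂.I) (hr : r ∈ T₂.F)
    (h' : T₂.Run i w₂ u₂ r) : ∃ s ∈ (T₁.cat T₂).F,
      (T₁.cat T₂).Run (Sum.inl q : T₁.Q ⊕ T₂.Q) (w₁ ++ w₂) (u₁ ++ u₂) s := by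
  have h1 : (T₁.cat T₂).Run (Sum.inl q : T₁.Q ⊕ T₂.Q) w₁ u₁ (Sum.inl f : T₁.Q ⊕ T₂.Q) :=
    RT.run_map (T := T₁) (T' := T₁.cat T₂) (fun q => (Sum.inl q : T₁.Q ⊕ T₂.Q))
      (fun q a p hp => Or.inl ⟨p, hp, rfl⟩) h
  cases w₂ with
  | nil =>
    obtain ⟨rfl, rfl⟩ := (RT.run_nil_iff _ _ _ _).1 h'
    rw [List.append_nil, List.append_nil]
    exact ⟨(Sum.inl f : T₁.Q ⊕ T₂.Q), Or.inr ⟨f, hf, ⟨r, hi, hr⟩, rfl⟩, h1⟩
  | cons a w₂ =>
    obtain ⟨s', u₃, u₄, h2, rfl, h3⟩ := (RT.run_cons_iff _ _ _ _ _ _).1 h'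
    refine ⟨(Sum.inr r : T₁.Q ⊕ T₂.Q), Or.inl ⟨r, hr, rfl⟩, h1.append ?_⟩
    have h4 : (T₁.cat T₂).Run (Sum.inr s' : T₁.Q ⊕ T₂.Q) w₂ u₄ (Sum.inr r : T₁.Q ⊕ T₂.Q) :=
      RT.run_map (T := T₂) (T' := T₁.cat T₂) (fun q => (Sum.inr q : T₁.Q ⊕ T₂.Q))
        (fun q a p hp => ⟨p, hp, rfl⟩) h3
    exact RT.Run.cons (T := T₁.cat T₂)
      (show ((Sum.inr s', u₃) : (T₁.Q ⊕ T₂.Q) × List β) ∈
        (T₁.cat T₂).δ (Sum.inl f : T₁.Q ⊕ T₂.Q) a from Or.inr ⟨hf, i, hi, (s', u₃), h2, rfl⟩) h4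

/-! ### plus -/

/-- the plus -/
def RT.plus (T : RT α β) : RT α β where
  Q := T.Q
  finQ := T.finQ
  δ := fun q a => T.δ q a ∪ {p | q ∈ T.F ∧ ∃ i ∈ T.I, p ∈ T.δ i a}
  fin := by
    have := T.finQ
    intro q a
    refine (T.fin q a).union ?_
    refine (Set.finite_iUnion fun i : T.Q => T.fin i a).subset ?_
    rintro p ⟨-, i, -, h⟩
    exact Set.mem_iUnion.2 ⟨i, h⟩
  I := T.I
  F := T.F

/-- the accepted pairs -/
def RT.Acc (T : RT α β) : Set (List α × List β) := {p | ∃ q ∈ T.I, ∃ r ∈ T.F, T.Run q p.1 p.2 r}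

theorem RT.plus_fwd (T : RT α β) (q s : T.Q) (w : List α) (u : List β)
    (h : T.plus.Run q w u s) (hs : s ∈ T.F) :
    ∃ f ∈ T.F, ∃ w₁ u₁, T.Run q w₁ u₁ f ∧ ∃ l : List (List α × List β), (∀ p ∈ l, p ∈ T.Acc) ∧
      w = w₁ ++ (l.map Prod.fst).flatten ∧ u = u₁ ++ (l.map Prod.snd).flatten := by
  induction w generalizing q u with
  | nil =>
    obtain ⟨rfl, rfl⟩ := (RT.run_nil_iff _ _ _ _).1 h
    exact ⟨_, hs, [], [], RT.Run.nil _, [], by simp, by simp, by simp⟩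
  | cons a w ih =>
    obtain ⟨s', u₁, u₂, h1, rfl, h2⟩ := (RT.run_cons_iff _ _ _ _ _ _).1 h
    obtain ⟨f, hf, w₁, u₃, h3, l, h4, rfl, rfl⟩ := ih s' u₂ h2
    rcases h1 with h1 | ⟨h5, i, h6, h7⟩
    · exact ⟨f, hf, a :: w₁, u₁ ++ u₃, RT.Run.cons h1 h3, l, h4, rfl, by rw [List.append_assoc]⟩
    · refine ⟨q, h5, [], [], RT.Run.nil _, (a :: w₁, u₁ ++ u₃) :: l, ?_, by simp, by simp⟩
      intro p hp
      rcases List.mem_cons.1 hp with rfl | hp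
      · exact ⟨i, h6, f, hf, RT.Run.cons h7 h3⟩
      · exact h4 p hp

theorem RT.plus_sub (T : RT α β) {q s : T.Q} {w : List α} {u : List β}
    (h : T.Run q w u s) : T.plus.Run q w u s :=
  RT.run_map (T := T) (T' := T.plus) (fun q => q) (fun _ _ _ hp => Or.inl hp) h

theorem RT.plus_bwd (T : RT α β) (l : List (List α × List β)) (hl : ∀ p ∈ l, p ∈ T.Acc)
    (f : T.Q) (hf : f ∈ T.F) :
    ∃ s ∈ T.F, T.plus.Run f (l.map Prod.fst).flatten (l.map Prod.snd).flatten s := by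
  induction l generalizing f with
  | nil => exact ⟨f, hf, RT.Run.nil _⟩
  | cons p l ih =>
    have hl' : ∀ p ∈ l, p ∈ T.Acc := fun p hp => hl p (List.mem_cons_of_mem _ hp)
    obtain ⟨i, hi, r, hr, h⟩ := hl p List.mem_cons_self
    obtain ⟨w, u⟩ := p
    simp only at h
    cases w with
    | nil =>
      obtain ⟨rfl, rfl⟩ := (RT.run_nil_iff _ _ _ _).1 h
      exact ih hl' f hf
    | cons a w =>
      obtain ⟨s', u₁, u₂, h1, rfl, h2⟩ := (RT.run_cons_iff _ _ _ _ _ _).1 h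
      obtain ⟨s, hs, h3⟩ := ih hl' r hr
      refine ⟨s, hs, ?_⟩
      rw [List.map_cons, List.map_cons, List.flatten_cons, List.flatten_cons]
      have h4 : T.plus.Run f (a :: w) (u₁ ++ u₂) r :=
        RT.Run.cons (T := T.plus) (Or.inr ⟨hf, i, hi, h1⟩) (T.plus_sub h2)
      exact h4.append h3

end Pool.Agent.KS6_13.EH
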