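import Pool.Agent.KS6_13.EH.Afl2

/-!
# The AFL generated by a family of languages
-/

set_option autoImplicit false

namespace Pool.Agent.KS6_13.EH

/-- `AFL L β A`: the language `A` over the alphabet `β` is in the smallest class of languages which
contains the languages `L i` and all regular languages, and is closed under union,
concatenation, Kleene plus, nonerasing homomorphisms, inverse homomorphisms, intersection
with regular languages, and inverse images under real-time transducers. -/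
inductive AFL {ι : Type} {α : ι → Type} (L : ∀ i, Set (List (α i))) :
    (β : Type) → Set (List β) → Prop
  | base (i : ι) : AFL L (α i) (L i)
  | reg {β : Type} [Finite β] (R : Language β) : R.IsRegular → AFL L β {w | w ∈ R}
  | union {β : Type} {A B : Set (List β)} : AFL L β A → AFL L β B → AFL L β (A ∪ B)
  | concat {β : Type} {A B : Set (List β)} : AFL L β A → AFL L β B →
      AFL L β {w | ∃ u ∈ A, ∃ v ∈ B, w = u ++ v}
  | plus {β : Type} {A : Set (List β)} : AFL L β A →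
      AFL L β {w | ∃ l : List (List β), l ≠ [] ∧ (∀ u ∈ l, u ∈ A) ∧ w = l.flatten}
  | hom {β γ : Type} [Finite γ] {A : Set (List β)} (h : β → List γ) : (∀ b, h b ≠ []) →
      AFL L β A → AFL L γ {w | ∃ u ∈ A, w = u.flatMap h}
  | invHom {β γ : Type} [Finite γ] {A : Set (List β)} (h : γ → List β) : AFL L β A →
      AFL L γ {w | w.flatMap h ∈ A}
  | inter {β : Type} {A : Set (List β)} (R : Language β) : R.IsRegular → AFL L β A →
      AFL L β {w | w ∈ A ∧ w ∈ R}
  | trans {β γ : Type} [Finite γ] {A : Set (List β)} (T : RT γ β) : AFL L β A →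
      AFL L γ (T.pre A)

section

variable {β Γ : Type}

theorem flatten_mem_iff {S : Set (List Γ)} {E : Γ → Prop} (h0 : [] ∈ S)
    (hS : ∀ u v, Endy E u → (u ++ v ∈ S ↔ u ∈ S ∧ v ∈ S)) (l : List (List Γ))
    (hl : ∀ u ∈ l, Endy E u) : l.flatten ∈ S ↔ ∀ u ∈ l, u ∈ S := by
  induction l with
  | nil => simpa using h0
  | cons u l ih =>
    rw [List.flatten_cons, hS u _ (hl u List.mem_cons_self),
      ih (fun v hv => hl v (List.mem_cons_of_mem _ hv))]
    simp

/-- a letter is emitted for each letter, and a marker with the last one -/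
def baseRT (emb : β → Γ) (c : Γ) (hnil : Prop) : RT β Γ where
  Q := Bool
  finQ := inferInstance
  δ := fun q a => {p | q = false ∧ (p = (false, [emb a]) ∨ p = (true, [emb a, c]))}
  fin := by
    intro q a
    refine (((Set.finite_singleton (true, [emb a, c]))).insert (false, [emb a])).subset ?_
    rintro p ⟨-, h | h⟩
    · exact Or.inl h
    · exact Or.inr h
  I := {false}
  F := {q | q = true ∨ (q = false ∧ hnil)}

theorem baseRT_true (emb : β → Γ) (c : Γ) (hnil : Prop) (w : List β) (u : List Γ) (r : Bool) :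
    (baseRT emb c hnil).Run true w u r ↔ w = [] ∧ u = [] ∧ r = true := by
  cases w with
  | nil =>
    refine (RT.run_nil_iff _ _ _ _).trans ?_
    constructor
    · rintro ⟨h1, h2⟩
      exact ⟨rfl, h1, h2⟩
    · rintro ⟨-, h1, h2⟩
      exact ⟨h1, h2⟩
  | cons a w =>
    refine (RT.run_cons_iff _ _ _ _ _ _).trans ?_
    constructor
    · rintro ⟨s, u₁, u₂, ⟨h1, -⟩, -⟩
      exact absurd h1 (by simp)
    · rintro ⟨h1, -⟩
      simp at h1

theorem baseRT_false (emb : β → Γ) (c : Γ) (hnil : Prop) (w : List β) (u : List Γ) (r : Bool) :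
    (baseRT emb c hnil).Run false w u r ↔
      (r = false ∧ u = w.map emb) ∨ (r = true ∧ w ≠ [] ∧ u = w.map emb ++ [c]) := by
  induction w generalizing u with
  | nil =>
    refine (RT.run_nil_iff _ _ _ _).trans ?_
    constructor
    · rintro ⟨h1, h2⟩
      exact Or.inl ⟨h2, h1⟩
    · rintro (⟨h1, h2⟩ | ⟨-, h1, -⟩)
      · exact ⟨h2, h1⟩
      · exact absurd rfl h1
  | cons a w ih =>
    refine (RT.run_cons_iff _ _ _ _ _ _).trans ?_
    constructor
    · rintro ⟨s, u₁, u₂, ⟨-, (h1 | h1)⟩, rfl, h2⟩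
      · obtain ⟨h3, h4⟩ := Prod.ext_iff.1 h1
        simp only at h3 h4
        subst h3 h4
        rcases (ih u₂).1 h2 with ⟨h5, rfl⟩ | ⟨h5, -, rfl⟩
        · exact Or.inl ⟨h5, rfl⟩
        · exact Or.inr ⟨h5, by simp, rfl⟩
      · obtain ⟨h3, h4⟩ := Prod.ext_iff.1 h1
        simp only at h3 h4
        subst h3 h4
        obtain ⟨rfl, rfl, rfl⟩ := (baseRT_true emb c hnil w u₂ r).1 h2
        exact Or.inr ⟨rfl, by simp, rfl⟩
    · rintro (⟨h1, rfl⟩ | ⟨h1, -, rfl⟩)
      · exact ⟨false, [emb a], w.map emb, ⟨rfl, Or.inl rfl⟩, rfl, (ih _).2 (Or.inl ⟨h1, rfl⟩)⟩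
      · by_cases hw : w = []
        · subst hw
          exact ⟨true, [emb a, c], [], ⟨rfl, Or.inr rfl⟩, rfl,
            (baseRT_true emb c hnil _ _ _).2 ⟨rfl, rfl, h1⟩⟩
        · exact ⟨false, [emb a], w.map emb ++ [c], ⟨rfl, Or.inl rfl⟩, rfl,
            (ih _).2 (Or.inr ⟨h1, hw, rfl⟩)⟩

theorem baseRT_pre {S : Set (List Γ)} {L : Set (List β)} (h0 : [] ∈ S) (emb : β → Γ) (c : Γ)
    (h1 : ∀ v : List β, v.map emb ++ [c] ∈ S ↔ v ∈ L) (h2 : ∀ v : List β, v.map emb ∈ S → v = []) :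
    (baseRT emb c ([] ∈ L)).pre S = L := by
  ext w
  constructor
  · rintro ⟨q, hq, r, hr, u, hu, h⟩
    have hq' : q = false := hq
    subst hq'
    rcases (baseRT_false emb c _ w u r).1 h with ⟨rfl, rfl⟩ | ⟨rfl, -, rfl⟩
    · have h3 := h2 w hu
      subst h3
      rcases hr with hr | ⟨-, hr⟩
      · exact absurd hr (by simp)
      · exact hr
    · exact (h1 w).1 hu
  · intro hw
    by_cases hn : w = []
    · subst hn
      exact ⟨false, rfl, false, Or.inr ⟨rfl, hw⟩, [], h0,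
        (baseRT_false emb c _ [] [] false).2 (Or.inl ⟨rfl, rfl⟩)⟩
    · exact ⟨false, rfl, true, Or.inl rfl, _, (h1 w).2 hw,
        (baseRT_false emb c _ w _ true).2 (Or.inr ⟨rfl, hn, rfl⟩)⟩

end

/-- All languages of the AFL are inverse images of one language. -/
theorem AFL_pre {ι : Type} {α : ι → Type} [hα : ∀ i, Finite (α i)] (L : ∀ i, Set (List (α i)))
    {Γ : Type} (S : Set (List Γ)) (E : Γ → Prop) (h0 : [] ∈ S) (hE : ∀ u ∈ S, Endy E u)
    (hS : ∀ u v, Endy E u → (u ++ v ∈ S ↔ u ∈ S ∧ v ∈ S)) (emb : ∀ i, α i → Γ) (c : ι → Γ)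
    (h1 : ∀ i (v : List (α i)), v.map (emb i) ++ [c i] ∈ S ↔ v ∈ L i)
    (h2 : ∀ i (v : List (α i)), v.map (emb i) ∈ S → v = []) (β : Type) (A : Set (List β))
    (hA : AFL L β A) : Finite β ∧ ∃ T : RT β Γ, T.pre S = A := by
  induction hA with
  | base i => exact ⟨hα i, baseRT (emb i) (c i) ([] ∈ L i), baseRT_pre h0 _ _ (h1 i) (h2 i)⟩
  | @reg β hβ R hR =>
    obtain ⟨σ, hσ, M, rfl⟩ := hR
    refine ⟨hβ, (ofDFA M).comp (ofHom (fun _ : β => ([] : List Γ))), ?_⟩
    rw [RT.comp_pre, ofHom_pre, ofDFA_pre]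
    ext w
    have e : ∀ w : List β, w.flatMap (fun _ : β => ([] : List Γ)) = [] := by
      intro w
      induction w with
      | nil => rfl
      | cons a w ih => rw [List.flatMap_cons, ih]; rfl
    simp only [Set.mem_ofPred_eq, e]
    exact ⟨fun h => h.2, fun h => ⟨h0, h⟩⟩
  | @union β A B _ _ ih1 ih2 =>
    obtain ⟨hβ, T₁, rfl⟩ := ih1
    obtain ⟨-, T₂, rfl⟩ := ih2
    exact ⟨hβ, T₁.sum T₂, RT.sum_pre T₁ T₂ S⟩
  | @concat β A B _ _ ih1 ih2 =>
    obtain ⟨hβ, T₁, rfl⟩ := ih1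
    obtain ⟨-, T₂, rfl⟩ := ih2
    refine ⟨hβ, (T₁.clean E).cat T₂, ?_⟩
    rw [← RT.clean_pre E T₁ hE]
    ext w
    constructor
    · rintro ⟨s, ⟨q, hq, rfl⟩, s', hs', u, hu, h⟩
      obtain ⟨f, hf, w₁, u₁, w₂, u₂, h3, ⟨i, hi, r, hr, h4⟩, rfl, rfl⟩ :=
        RT.cat_fwd (T₁.clean E) T₂ q s' w u h hs'
      have h5 := (hS u₁ u₂ (RT.clean_isClean E T₁ q hq f hf w₁ u₁ h3)).1 hu
      exact ⟨w₁, ⟨q, hq, f, hf, u₁, h5.1, h3⟩, w₂, ⟨i, hi, r, hr, u₂, h5.2, h4⟩, rfl⟩
    · rintro ⟨w₁, ⟨q, hq, f, hf, u₁, hu₁, h3⟩, w₂, ⟨i, hi, r, hr, u₂, hu₂, h4⟩, rfl⟩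
      obtain ⟨s, hs, h5⟩ := RT.cat_bwd (T₁.clean E) T₂ q f i r w₁ w₂ u₁ u₂ h3 hf hi hr h4
      exact ⟨_, ⟨q, hq, rfl⟩, s, hs, u₁ ++ u₂,
        (hS u₁ u₂ (RT.clean_isClean E T₁ q hq f hf w₁ u₁ h3)).2 ⟨hu₁, hu₂⟩, h5⟩
  | @plus β A _ ih =>
    obtain ⟨hβ, T, rfl⟩ := ih
    refine ⟨hβ, (T.clean E).plus, ?_⟩
    rw [← RT.clean_pre E T hE]
    have hcl : ∀ p ∈ (T.clean E).Acc, Endy E p.2 := by
      rintro ⟨w, u⟩ ⟨q, hq, r, hr, h⟩
      exact RT.clean_isClean E T q hq r hr w u h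
    ext w
    constructor
    · rintro ⟨q, hq, r, hr, u, hu, h⟩
      obtain ⟨f, hf, w₁, u₁, h3, l, h4, rfl, rfl⟩ := RT.plus_fwd (T.clean E) q r w u h hr
      have h5 : (w₁, u₁) ∈ (T.clean E).Acc := ⟨q, hq, f, hf, h3⟩
      have h6 : ∀ p ∈ (w₁, u₁) :: l, p ∈ (T.clean E).Acc := by
        intro p hp
        rcases List.mem_cons.1 hp with rfl | hp
        · exact h5
        · exact h4 p hp
      have h7 : (((w₁, u₁) :: l).map Prod.snd).flatten ∈ S := by
        rw [List.map_cons, List.flatten_cons]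
        exact hu
      have h8 := (flatten_mem_iff h0 hS _ (by
        intro v hv
        obtain ⟨p, hp, rfl⟩ := List.mem_map.1 hv
        exact hcl p (h6 p hp))).1 h7
      refine ⟨((w₁, u₁) :: l).map Prod.fst, by simp, ?_, by simp⟩
      intro v hv
      obtain ⟨p, hp, rfl⟩ := List.mem_map.1 hv
      obtain ⟨q', hq', r', hr', h9⟩ := h6 p hp
      exact ⟨q', hq', r', hr', p.2, h8 _ (List.mem_map.2 ⟨p, hp, rfl⟩), h9⟩
    · rintro ⟨l, hl, h3, rfl⟩
      have h4 : ∃ l' : List (List β × List Γ), (∀ p ∈ l', p ∈ (T.clean E).Acc ∧ p.2 ∈ S) ∧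
          l = l'.map Prod.fst := by
        clear hl
        induction l with
        | nil => exact ⟨[], by simp, rfl⟩
        | cons v l ih =>
          obtain ⟨l', h4, h5⟩ := ih (fun u hu => h3 u (List.mem_cons_of_mem _ hu))
          obtain ⟨q, hq, r, hr, u, hu, h⟩ := h3 v List.mem_cons_self
          refine ⟨(v, u) :: l', ?_, by rw [h5]; rfl⟩
          intro p hp
          rcases List.mem_cons.1 hp with rfl | hp
          · exact ⟨⟨q, hq, r, hr, h⟩, hu⟩
          · exact h4 p hp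
      obtain ⟨l', h4, rfl⟩ := h4
      cases l' with
      | nil => exact absurd rfl hl
      | cons p l' =>
        obtain ⟨⟨i, hi, r, hr, h5⟩, h6⟩ := h4 p List.mem_cons_self
        obtain ⟨s, hs, h7⟩ := RT.plus_bwd (T.clean E) l'
          (fun p' hp' => (h4 p' (List.mem_cons_of_mem _ hp')).1) r hr
        refine ⟨i, hi, s, hs, ((p :: l').map Prod.snd).flatten, ?_, ?_⟩
        · refine (flatten_mem_iff h0 hS _ ?_).2 ?_
          · intro v hv
            obtain ⟨p', hp', rfl⟩ := List.mem_map.1 hv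
            exact hcl p' (h4 p' hp').1
          · intro v hv
            obtain ⟨p', hp', rfl⟩ := List.mem_map.1 hv
            exact (h4 p' hp').2
        · rw [List.map_cons, List.map_cons, List.flatten_cons, List.flatten_cons]
          exact (RT.plus_sub (T.clean E) h5).append h7
  | @hom β γ hγ A h hne _ ih =>
    obtain ⟨hβ, T, rfl⟩ := ih
    exact ⟨hγ, (ofImg h).comp T, by rw [RT.comp_pre, ofImg_pre h hne]⟩
  | @invHom β γ hγ A h _ ih =>
    obtain ⟨hβ, T, rfl⟩ := ih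
    exact ⟨hγ, (ofHom h).comp T, by rw [RT.comp_pre, ofHom_pre]⟩
  | @inter β A R hR _ ih =>
    obtain ⟨hβ, T, rfl⟩ := ih
    obtain ⟨σ, hσ, M, rfl⟩ := hR
    exact ⟨hβ, (ofDFA M).comp T, by rw [RT.comp_pre, ofDFA_pre]⟩
  | @trans β γ hγ A T' _ ih =>
    obtain ⟨hβ, T, rfl⟩ := ih
    exact ⟨hγ, T'.comp T, by rw [RT.comp_pre]⟩

end Pool.Agent.KS6_13.EH
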