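import Pool.Agent.KS6_13.EH.Sys

/-!
# The ETOL system for the words which encode a word of an ETOL language
-/

set_option autoImplicit false
set_option linter.unusedSectionVars false

namespace Pool.Agent.KS6_13.EH

open Pool.Agent.Helper450.ET Pool.Agent.Y551.EL Mk Ex

variable {β ν : Type}

/-- the new system -/
def sys [Finite β] (G : ETOL β) : ETOL (A1 β) where
  ν := N1 β G.ν
  T := G.T ⊕ Bool
  finν := by have := G.finν; infer_instance
  finT := by have := G.finT; infer_instance
  tab := fun t => match t with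
    | Sum.inl t => simtab (G.tab t)
    | Sum.inr true => swtab
    | Sum.inr false => gtab
  tab_fin := by
    rintro (t | (_ | _)) s
    · rcases s with x | s | e
      · exact Set.finite_singleton _
      · exact (G.tab_fin t s).image _
      · exact Set.finite_singleton _
    · exact gtab_fin s
    · rcases s with x | s | e
      · exact Set.finite_singleton _
      · exact Set.finite_singleton _
      · exact Set.finite_singleton _
  tab_ne := by
    rintro (t | (_ | _)) s
    · rcases s with x | s | e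
      · exact Set.singleton_nonempty _
      · exact (G.tab_ne t s).image _
      · exact Set.singleton_nonempty _
    · exact gtab_ne s
    · rcases s with x | s | e
      · exact Set.singleton_nonempty _
      · exact Set.singleton_nonempty _
      · exact Set.singleton_nonempty _
  axm := P0 ++ (G.axm.map pr ++ Q0)

/-! ### steps -/

theorem step_const {S : Type} (f : S → Set (List S)) (u m : List S) (h : ∀ s ∈ u, f s = {[s]}) :
    Step f u m ↔ m = u := by
  induction u generalizing m with
  | nil => exact step_nil f m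
  | cons s u ih =>
    rw [← List.singleton_append, step_append]
    constructor
    · rintro ⟨x, y, rfl, h1, h2⟩
      rw [step_single, h s List.mem_cons_self] at h1
      rw [ih y (fun t ht => h t (List.mem_cons_of_mem _ ht))] at h2
      rw [h2, h1]
    · rintro rfl
      refine ⟨[s], u, rfl, (step_single _ _ _).2 ?_,
        (ih u (fun t ht => h t (List.mem_cons_of_mem _ ht))).2 rfl⟩
      rw [h s List.mem_cons_self]
      rfl

theorem step_sim (f : β ⊕ ν → Set (List (β ⊕ ν))) (v : List (β ⊕ ν)) (m : List (S1 β ν)) :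
    Step (simtab f) (v.map pr) m ↔ ∃ v₁, m = v₁.map pr ∧ Step f v v₁ := by
  induction v generalizing m with
  | nil =>
    rw [List.map_nil, step_nil]
    constructor
    · rintro rfl
      exact ⟨[], rfl, (step_nil _ _).2 rfl⟩
    · rintro ⟨v₁, rfl, h⟩
      rw [step_nil] at h
      rw [h]
      rfl
  | cons s v ih =>
    rw [List.map_cons, ← List.singleton_append, step_append]
    constructor
    · rintro ⟨x, y, rfl, h1, h2⟩
      rw [step_single] at h1
      obtain ⟨x₁, h3, rfl⟩ : x ∈ (List.map pr) '' f s := h1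
      obtain ⟨v₁, rfl, h4⟩ := (ih y).1 h2
      refine ⟨x₁ ++ v₁, by rw [List.map_append], ?_⟩
      rw [← List.singleton_append, step_append]
      exact ⟨x₁, v₁, rfl, (step_single _ _ _).2 h3, h4⟩
    · rintro ⟨v₁, rfl, h⟩
      rw [← List.singleton_append, step_append] at h
      obtain ⟨x₁, v₂, rfl, h3, h4⟩ := h
      rw [step_single] at h3
      exact ⟨x₁.map pr, v₂.map pr, by rw [List.map_append],
        (step_single _ _ _).2 (show _ ∈ (List.map pr) '' f s from ⟨x₁, h3, rfl⟩),
        (ih _).2 ⟨v₂, rfl, h4⟩⟩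

theorem step_sw (v : List (β ⊕ ν)) (m : List (S1 β ν)) :
    Step swtab (v.map pr) m ↔ m = v.flatMap swimg := by
  induction v generalizing m with
  | nil => rw [List.map_nil, step_nil]; rfl
  | cons s v ih =>
    rw [List.map_cons, ← List.singleton_append, step_append]
    constructor
    · rintro ⟨x, y, rfl, h1, h2⟩
      rw [step_single] at h1
      have h1' : x = swimg s := h1
      rw [ih] at h2
      rw [h1', h2, List.flatMap_cons]
    · rintro rfl
      exact ⟨swimg s, v.flatMap swimg, by rw [List.flatMap_cons],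
        (step_single _ _ _).2 (show _ ∈ ({swimg s} : Set (List (S1 β ν))) from rfl),
        (ih _).2 rfl⟩

/-- no primed symbols -/
def Unp (u : List (S1 β ν)) : Prop := ∀ s ∈ u, ∀ σ : β ⊕ ν, s ≠ pr σ

theorem Unp_append {u u' : List (S1 β ν)} : Unp (u ++ u') ↔ Unp u ∧ Unp u' := by
  constructor
  · intro h
    exact ⟨fun s hs => h s (List.mem_append_left _ hs), fun s hs => h s (List.mem_append_right _ hs)⟩
  · rintro ⟨h1, h2⟩ s hs
    rcases List.mem_append.1 hs with h | h
    · exact h1 s h
    · exact h2 s h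

theorem Unp_gtab {s : S1 β ν} (hs : ∀ σ : β ⊕ ν, s ≠ pr σ) {r : List (S1 β ν)} (hr : r ∈ gtab s) :
    Unp r := by
  rcases s with x | s | e
  · have hr' : r = [tm x] := hr
    subst hr'
    intro s hs σ
    rw [List.mem_singleton.1 hs]
    simp
  · exact absurd rfl (hs s)
  · intro s hs σ h
    subst h
    cases e
    · rcases hr with rfl | rfl | rfl <;> simp at hs
    · rcases hr with rfl | rfl | rfl <;> simp at hs
    · rcases hr with rfl | rfl | ⟨a, ha, rfl⟩ <;> simp at hs
    · rcases hr with rfl | rfl | ⟨a, ha, rfl⟩ <;> simp at hs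
    · have hr' : r = [ex dd] := hr
      subst hr'
      simp at hs

theorem Unp_step {u m : List (S1 β ν)} (hu : Unp u) (h : Step gtab u m) : Unp m := by
  induction u generalizing m with
  | nil =>
    rw [step_nil] at h
    subst h
    exact hu
  | cons s u ih =>
    rw [← List.singleton_append, step_append] at h
    obtain ⟨x, y, rfl, h1, h2⟩ := h
    rw [step_single] at h1
    rw [Unp_append]
    exact ⟨Unp_gtab (hu s List.mem_cons_self) h1,
      ih (fun t ht => hu t (List.mem_cons_of_mem _ ht)) h2⟩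

/-! ### the language -/

variable [Finite β] (G : ETOL β)

/-- the invariant -/
def Inv (u : List (S1 β G.ν)) : Prop :=
  (∃ (p : List (S1 β G.ν)) (v : List (β ⊕ G.ν)) (q : List (S1 β G.ν)),
    u = p ++ (v.map pr ++ q) ∧ (∃ ts, Derives G.tab ts G.axm v) ∧ Unp p ∧ Unp q ∧
      (∀ x, x ∈ Y p → x ∈ Y (P0 : List (S1 β G.ν))) ∧
      (∀ x, x ∈ Y q → x ∈ Y (Q0 : List (S1 β G.ν)))) ∨
  (Unp u ∧ ∀ x, x ∈ Y u → x ∈ Enc G.lang)

theorem derives_snoc {S T : Type} (tab : T → S → Set (List S)) (ts : List T) (t : T)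
    (u v m : List S) (h : Derives tab ts u v) (hm : Step (tab t) v m) :
    Derives tab (ts ++ [t]) u m := by
  induction ts generalizing u with
  | nil =>
    have h' : v = u := h
    subst h'
    exact ⟨m, hm, rfl⟩
  | cons t' ts ih =>
    obtain ⟨m', h1, h2⟩ := h
    exact ⟨m', h1, ih m' h2⟩

theorem sw_term (v : List (β ⊕ G.ν)) (x : List (A1 β)) (h : x ∈ Y (v.flatMap swimg)) :
    ∃ w : List β, v = w.map Sum.inl := by
  induction v generalizing x with
  | nil => exact ⟨[], rfl⟩
  | cons s v ih =>
    rw [List.flatMap_cons, Y_append] at h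
    obtain ⟨y, z, rfl, h1, h2⟩ := h
    obtain ⟨w, rfl⟩ := ih z h2
    rcases s with a | X
    · exact ⟨a :: w, rfl⟩
    · exact absurd h1 (Y_dd y)

theorem sw_flatMap (w : List β) :
    ((w.map Sum.inl : List (β ⊕ G.ν)).flatMap swimg : List (S1 β G.ν)) = w.flatMap fa := by
  rw [List.flatMap_map]
  rfl

theorem Inv_step (t : G.T ⊕ Bool) (u m : List (S1 β G.ν)) (hu : Inv G u)
    (h : Step ((sys G).tab t) u m) : Inv G m := by
  rcases hu with ⟨p, v, q, rfl, ⟨ts, hts⟩, hp, hq, hp0, hq0⟩ | ⟨hu1, hu2⟩
  · obtain ⟨p', m', rfl, h1, h2⟩ := (step_append _ _ _ _).1 h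
    obtain ⟨v', q', rfl, h3, h4⟩ := (step_append _ _ _ _).1 h2
    have hc : ∀ (f : β ⊕ G.ν → Set (List (β ⊕ G.ν))) (p p' : List (S1 β G.ν)), Unp p →
        Step (simtab f) p p' → p' = p := by
      intro f p p' hp h
      refine (step_const _ _ _ ?_).1 h
      intro s hs
      rcases s with x | σ | e
      · rfl
      · exact absurd rfl (hp _ hs σ)
      · rfl
    have hc2 : ∀ (p p' : List (S1 β G.ν)), Unp p → Step swtab p p' → p' = p := by
      intro p p' hp h
      refine (step_const _ _ _ ?_).1 h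
      intro s hs
      rcases s with x | σ | e
      · rfl
      · exact absurd rfl (hp _ hs σ)
      · rfl
    rcases t with t | (_ | _)
    · -- simulation
      left
      have h5 := hc _ p p' hp h1
      have h6 := hc _ q q' hq h4
      subst h5 h6
      obtain ⟨v₁, rfl, h7⟩ := (step_sim _ _ _).1 h3
      exact ⟨p', v₁, q', rfl, ⟨ts ++ [t], derives_snoc _ _ _ _ _ _ hts h7⟩, hp, hq, hp0, hq0⟩
    · -- grammar
      left
      have h5 : v' = v.map pr := by
        refine (step_const _ _ _ ?_).1 h3
        intro s hs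
        obtain ⟨σ, -, rfl⟩ := List.mem_map.1 hs
        rfl
      subst h5
      exact ⟨p', v, q', rfl, ⟨ts, hts⟩, Unp_step hp h1, Unp_step hq h4,
        fun x hx => hp0 x (Y_step h1 hx), fun x hx => hq0 x (Y_step h4 hx)⟩
    · -- switch
      right
      have h5 := hc2 p p' hp h1
      have h6 := hc2 q q' hq h4
      subst h5 h6
      have h7 := (step_sw _ _).1 h3
      subst h7
      constructor
      · refine Unp_append.2 ⟨hp, Unp_append.2 ⟨?_, hq⟩⟩
        intro s hs σ h
        subst h
        obtain ⟨τ, -, h8⟩ := List.mem_flatMap.1 hs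
        rcases τ with a | X
        · simp [swimg] at h8
        · simp [swimg] at h8
      · intro x hx
        obtain ⟨x1, y, rfl, h8, h9⟩ := (Y_append _ _ _).1 hx
        obtain ⟨x2, x3, rfl, h10, h11⟩ := (Y_append _ _ _).1 h9
        obtain ⟨w, rfl⟩ := sw_term G v x2 h10
        rw [sw_flatMap] at h10
        refine ⟨w, ⟨ts, hts⟩, ?_⟩
        refine (Y_word (ν := G.ν) w _).1 ((Y_append _ _ _).2 ⟨x1, _, rfl, hp0 _ h8,
          (Y_append _ _ _).2 ⟨x2, x3, rfl, h10, hq0 _ h11⟩⟩)
  · right
    rcases t with t | (_ | _)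
    · have h5 : m = u := by
        refine (step_const _ _ _ ?_).1 h
        intro s hs
        rcases s with x | σ | e
        · rfl
        · exact absurd rfl (hu1 _ hs σ)
        · rfl
      subst h5
      exact ⟨hu1, hu2⟩
    · exact ⟨Unp_step hu1 h, fun x hx => hu2 x (Y_step h hx)⟩
    · have h5 : m = u := by
        refine (step_const _ _ _ ?_).1 h
        intro s hs
        rcases s with x | σ | e
        · rfl
        · exact absurd rfl (hu1 _ hs σ)
        · rfl
      subst h5
      exact ⟨hu1, hu2⟩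

theorem Inv_derives (ts : List (G.T ⊕ Bool)) (u m : List (S1 β G.ν)) (hu : Inv G u)
    (h : Derives (sys G).tab ts u m) : Inv G m := by
  induction ts generalizing u with
  | nil =>
    have h' : m = u := h
    subst h'
    exact hu
  | cons t ts ih =>
    obtain ⟨m', h1, h2⟩ := h
    exact ih m' (Inv_step G t u m' hu h1) h2

theorem Inv_axm : Inv G (sys G).axm := by
  left
  refine ⟨P0, G.axm, Q0, rfl, ⟨[], rfl⟩, ?_, ?_, fun x h => h, fun x h => h⟩
  · intro s hs σ h
    subst h
    simp [P0] at hs
  · intro s hs σ h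
    subst h
    simp [Q0] at hs

theorem Inv_term (w : List (A1 β)) (h : Inv G (w.map Sum.inl)) : w ∈ Enc G.lang := by
  rcases h with ⟨p, v, q, h1, ⟨ts, hts⟩, hp, hq, hp0, hq0⟩ | ⟨hu1, hu2⟩
  · obtain ⟨w1, w2, rfl, h2, h3⟩ := List.map_eq_append_iff.1 h1
    obtain ⟨w3, w4, rfl, h4, h5⟩ := List.map_eq_append_iff.1 h3
    have hv : v = [] := by
      cases v with
      | nil => rfl
      | cons σ v =>
        cases w3 with
        | nil => simp at h4
        | cons a w3 => simp at h4
    subst hv
    have hw3 : w3 = [] := by simpa using h4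
    subst hw3
    refine ⟨[], ⟨ts, hts⟩, (Y_word (ν := G.ν) [] _).1 ((Y_append _ _ _).2 ⟨w1, _, rfl, ?_, ?_⟩)⟩
    · exact hp0 _ ⟨0, h2⟩
    · exact hq0 _ ⟨0, h5⟩
  · exact hu2 w ⟨0, rfl⟩

theorem P0_sim (f : β ⊕ ν → Set (List (β ⊕ ν))) :
    ∀ s ∈ (P0 : List (S1 β ν)), simtab f s = {[s]} := by
  intro s hs
  simp only [P0, List.mem_cons, List.not_mem_nil, or_false] at hs
  rcases hs with rfl | rfl | rfl | rfl <;> rfl

theorem Q0_sim (f : β ⊕ ν → Set (List (β ⊕ ν))) :
    ∀ s ∈ (Q0 : List (S1 β ν)), simtab f s = {[s]} := by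
  intro s hs
  simp only [Q0, List.mem_cons, List.not_mem_nil, or_false] at hs
  rcases hs with rfl | rfl | rfl | rfl <;> rfl

theorem P0_sw : ∀ s ∈ (P0 : List (S1 β ν)), swtab s = {[s]} := by
  intro s hs
  simp only [P0, List.mem_cons, List.not_mem_nil, or_false] at hs
  rcases hs with rfl | rfl | rfl | rfl <;> rfl

theorem Q0_sw : ∀ s ∈ (Q0 : List (S1 β ν)), swtab s = {[s]} := by
  intro s hs
  simp only [Q0, List.mem_cons, List.not_mem_nil, or_false] at hs
  rcases hs with rfl | rfl | rfl | rfl <;> rfl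

theorem sys_lang : (sys G).lang = Enc G.lang := by
  ext x
  constructor
  · rintro ⟨ts, h⟩
    exact Inv_term G x (Inv_derives G ts _ _ (Inv_axm G) h)
  · rintro ⟨v, ⟨ts, hts⟩, h⟩
    obtain ⟨n, hn⟩ := (Y_word (ν := G.ν) v x).2 h
    -- simulation
    have s1 : ∀ (ts : List G.T) (u : List (β ⊕ G.ν)) (v : List (β ⊕ G.ν)),
        Derives G.tab ts u v →
        ∀ (rest : List (G.T ⊕ Bool)) (m : List (S1 β G.ν)),
          Derives (sys G).tab rest (P0 ++ (v.map pr ++ Q0)) m →
          Derives (sys G).tab (ts.map Sum.inl ++ rest) (P0 ++ (u.map pr ++ Q0)) m := by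
      intro ts
      induction ts with
      | nil =>
        intro u v h rest m h'
        have h0 : v = u := h
        subst h0
        exact h'
      | cons t ts ih =>
        rintro u v ⟨u', h1, h2⟩ rest m h'
        refine ⟨P0 ++ (u'.map pr ++ Q0), ?_, ih u' v h2 rest m h'⟩
        exact (step_append _ _ _ _).2 ⟨P0, _, rfl, (step_const _ _ _ (P0_sim _)).2 rfl,
          (step_append _ _ _ _).2 ⟨_, Q0, rfl, (step_sim _ _ _).2 ⟨u', rfl, h1⟩,
            (step_const _ _ _ (Q0_sim _)).2 rfl⟩⟩
    -- switch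
    have s2 : Step ((sys G).tab (Sum.inr true)) (P0 ++ ((v.map Sum.inl).map pr ++ Q0))
        (P0 ++ (v.flatMap fa ++ Q0)) := by
      exact (step_append _ _ _ _).2 ⟨P0, _, rfl, (step_const _ _ _ P0_sw).2 rfl,
        (step_append _ _ _ _).2 ⟨_, Q0, rfl, (step_sw _ _).2 (sw_flatMap G v).symm,
          (step_const _ _ _ Q0_sw).2 rfl⟩⟩
    -- grammar
    have s3 : ∀ (n : ℕ) (u m : List (S1 β G.ν)), DG n u m →
        Derives (sys G).tab (List.replicate n (Sum.inr false)) u m := by
      intro n
      induction n with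
      | zero => intro u m h; exact h
      | succ n ih =>
        rintro u m ⟨m', h1, h2⟩
        exact (⟨m', h1, ih m' m h2⟩ :
          Derives (sys G).tab (Sum.inr false :: List.replicate n (Sum.inr false)) u m)
    exact ⟨_, s1 ts _ _ hts (Sum.inr true :: List.replicate n (Sum.inr false)) _
      ⟨_, s2, s3 n _ _ hn⟩⟩

theorem sys_card : Nat.card (A1 β ⊕ (sys G).ν) ≤ 2 * Nat.card (β ⊕ G.ν) + 13 := by
  have := G.finν
  have h1 : Nat.card (A1 β ⊕ (sys G).ν) =
      (Nat.card β + 8) + ((Nat.card β + Nat.card G.ν) + 5) := by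
    show Nat.card ((β ⊕ Mk) ⊕ ((β ⊕ G.ν) ⊕ Ex)) = _
    rw [Nat.card_sum, Nat.card_sum, Nat.card_sum, Nat.card_sum,
      Nat.card_eq_fintype_card (α := Mk), card_Mk, Nat.card_eq_fintype_card (α := Ex), card_Ex]
  rw [h1, Nat.card_sum]
  omega

end Pool.Agent.KS6_13.EH
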