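import Mathlib

/-!
# Real-time transducers and one homomorphism for all of them
-/

set_option autoImplicit false

namespace Pool.Agent.KS6_13.EH

/-- A real-time transducer (nondeterministic generalised sequential machine with initial and
accepting states): in each step it reads one letter of the input and writes a word. -/
structure RT (α β : Type) where
  /-- the states -/
  Q : Type
  finQ : Finite Q
  /-- `(r, u) ∈ δ q a`: in the state `q` it can read `a`, write `u` and go to the state `r` -/
  δ : Q → α → Set (Q × List β)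
  fin : ∀ q a, (δ q a).Finite
  /-- the initial states -/
  I : Set Q
  /-- the accepting states -/
  F : Set Q

variable {α β : Type}

/-- `T.Run q w u r`: from the state `q` the transducer can read `w`, write `u` and go to `r`. -/
inductive RT.Run (T : RT α β) : T.Q → List α → List β → T.Q → Prop
  | nil (q : T.Q) : RT.Run T q [] [] q
  | cons {q r s : T.Q} {a : α} {w : List α} {u v : List β} :
      (r, u) ∈ T.δ q a → RT.Run T r w v s → RT.Run T q (a :: w) (u ++ v) s

/-- The inverse image of a language under the transduction of `T`. -/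
def RT.pre (T : RT α β) (L : Set (List β)) : Set (List α) :=
  {w | ∃ q ∈ T.I, ∃ r ∈ T.F, ∃ u ∈ L, T.Run q w u r}

/-- the markers -/
inductive Mk
  | cc | lt | gt | bar | m1 | m2 | st | en
  deriving DecidableEq

instance : Fintype Mk :=
  ⟨{Mk.cc, Mk.lt, Mk.gt, Mk.bar, Mk.m1, Mk.m2, Mk.st, Mk.en}, fun x => by cases x <;> simp⟩

theorem card_Mk : Fintype.card Mk = 8 := rfl

open Mk

/-- the letters: those of `β`, and the markers -/
abbrev A1 (β : Type) := β ⊕ Mk

/-- the marker as a letter -/
abbrev mk (m : Mk) : A1 β := Sum.inr m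

/-- `c ^ j` -/
def cs (j : ℕ) : List (A1 β) := List.replicate j (mk cc)

/-- `After v x`: the word `x`, which follows a marker `m1`, is compatible with the word `v`. -/
inductive After : List β → List (A1 β) → Prop
  | letter {a : β} {v : List β} {x : List (A1 β)} : After v x → After (a :: v) (Sum.inl a :: x)
  | jump {j : ℕ} {N₁ N₂ : List (A1 β)} {v : List β} {x : List (A1 β)} : mk bar ∉ N₁ → mk bar ∉ N₂ →
      After v x → After v (mk m2 :: (cs j ++ (mk gt :: (N₁ ++ (mk bar :: (N₂ ++
        (mk lt :: (cs j ++ (mk m1 :: x)))))))))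
  | stop {N : List (A1 β)} : mk bar ∉ N → After [] (mk m2 :: mk en :: mk gt :: (N ++ [mk bar]))

/-- The words which encode a word of `L`. -/
def Enc (L : Set (List β)) : Set (List (A1 β)) :=
  {x | ∃ v ∈ L, ∃ N x', mk bar ∉ N ∧ x = N ++ (mk lt :: mk st :: mk m1 :: x') ∧ After v x'}

/-- an entry with source field `s`, output `u` and target field `t` -/
def entry (s : List (A1 β)) (u : List β) (t : List (A1 β)) : List (A1 β) :=
  mk lt :: (s ++ (mk m1 :: (u.map Sum.inl ++ (mk m2 :: (t ++ [mk gt])))))

/-! ### words -/

theorem cs_cancel {i j : ℕ} {x y : A1 β} {X Y : List (A1 β)} (hx : x ≠ mk cc) (hy : y ≠ mk cc)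
    (h : cs i ++ (x :: X) = cs j ++ (y :: Y)) : i = j ∧ x = y ∧ X = Y := by
  induction i generalizing j with
  | zero =>
    cases j with
    | zero => simpa [cs] using h
    | succ j =>
      simp only [cs, List.replicate_zero, List.nil_append, List.replicate_succ,
        List.cons_append, List.cons.injEq] at h
      exact absurd h.1 hx
  | succ i ih =>
    cases j with
    | zero =>
      simp only [cs, List.replicate_zero, List.nil_append, List.replicate_succ,
        List.cons_append, List.cons.injEq] at h
      exact absurd h.1.symm hy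
    | succ j =>
      simp only [cs, List.replicate_succ, List.cons_append, List.cons.injEq] at h
      obtain ⟨h1, h2⟩ := ih h.2
      exact ⟨by omega, h2⟩

theorem sep_cancel {γ : Type} {b : γ} {M N X Y : List γ} (hM : b ∉ M) (hN : b ∉ N)
    (h : M ++ (b :: X) = N ++ (b :: Y)) : M = N ∧ X = Y := by
  induction M generalizing N with
  | nil =>
    cases N with
    | nil => simpa using h
    | cons n N =>
      simp only [List.nil_append, List.cons_append, List.cons.injEq] at h
      exact absurd (h.1 ▸ List.mem_cons_self) hN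
  | cons m M ih =>
    cases N with
    | nil =>
      simp only [List.nil_append, List.cons_append, List.cons.injEq] at h
      exact absurd (h.1 ▸ List.mem_cons_self) hM
    | cons n N =>
      simp only [List.cons_append, List.cons.injEq] at h
      obtain ⟨h1, h2⟩ := ih (fun h' => hM (List.mem_cons_of_mem _ h'))
        (fun h' => hN (List.mem_cons_of_mem _ h')) h.2
      exact ⟨by rw [h.1, h1], h2⟩

/-- if `b` is not in `e` then `e` is a prefix of `N` -/
theorem prefix_of {γ : Type} {b : γ} {e N X Y : List γ} (he : b ∉ e)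
    (h : e ++ X = N ++ (b :: Y)) : ∃ N', N = e ++ N' ∧ X = N' ++ (b :: Y) := by
  induction e generalizing N with
  | nil => exact ⟨N, rfl, by simpa using h⟩
  | cons m e ih =>
    cases N with
    | nil =>
      simp only [List.nil_append, List.cons_append, List.cons.injEq] at h
      exact absurd (h.1 ▸ List.mem_cons_self) he
    | cons n N =>
      simp only [List.cons_append, List.cons.injEq] at h
      obtain ⟨N', h1, h2⟩ := ih (fun h' => he (List.mem_cons_of_mem _ h')) h.2
      exact ⟨N', by rw [h.1, h1]; rfl, h2⟩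

/-- the list of blocks starting with `lt` -/
theorem find_entry {l : List (List (A1 β))} (hl : ∀ e ∈ l, ∃ e', e = mk lt :: e' ∧ mk lt ∉ e')
    {y N z : List (A1 β)} (hN : mk bar ∉ N)
    (h : l.flatten ++ (mk bar :: y) = N ++ (mk lt :: z)) :
    ∃ l₁ e l₂, l = l₁ ++ (e :: l₂) ∧ N = l₁.flatten ∧
      mk lt :: z = e ++ (l₂.flatten ++ (mk bar :: y)) := by
  induction l generalizing N with
  | nil =>
    cases N with
    | nil => simp at h
    | cons n N =>
      simp only [List.flatten_nil, List.nil_append, List.cons_append, List.cons.injEq] at h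
      exact absurd (h.1 ▸ List.mem_cons_self) hN
  | cons e l ih =>
    obtain ⟨e', rfl, he'⟩ := hl e List.mem_cons_self
    cases N with
    | nil =>
      refine ⟨[], mk lt :: e', l, rfl, rfl, ?_⟩
      rw [List.flatten_cons, List.nil_append] at h
      rw [← h, List.append_assoc]
    | cons n N =>
      rw [List.flatten_cons, List.append_assoc, List.cons_append, List.cons_append] at h
      obtain ⟨h1, h2⟩ := List.cons.inj h
      obtain ⟨N', rfl, h3⟩ := prefix_of he' h2
      obtain ⟨l₁, e₂, l₂, h4, h5, h6⟩ := ih (fun e he => hl e (List.mem_cons_of_mem _ he))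
        (fun h' => hN (List.mem_cons_of_mem _ (List.mem_append_right _ h'))) h3
      refine ⟨(mk lt :: e') :: l₁, e₂, l₂, ?_, ?_, h6⟩
      · rw [h4]; rfl
      · rw [List.flatten_cons, h5, ← h1]; rfl

/-! ### the homomorphism -/

section hom

variable (T : RT α β) (e : T.Q → ℕ)

/-- `s` is a source field of the state `q` -/
def Src (q : T.Q) (s : List (A1 β)) : Prop := s = cs (e q) ∨ (s = [mk st] ∧ q ∈ T.I)

/-- `t` is a target field of the state `r` -/
def Tgt (r : T.Q) (t : List (A1 β)) : Prop := t = cs (e r) ∨ (t = [mk en] ∧ r ∈ T.F)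

/-- the entries of the letter `a` -/
def Entries (a : α) : Set (List (A1 β)) :=
  {x | ∃ q r u s t, (r, u) ∈ T.δ q a ∧ Src T e q s ∧ Tgt T e r t ∧ x = entry s u t}

theorem entries_fin (a : α) : (Entries T e a).Finite := by
  have := T.finQ
  have h1 : (⋃ q : T.Q, T.δ q a).Finite := Set.finite_iUnion fun q => T.fin q a
  have h2 : ((⋃ q : T.Q, ({cs (e q), [mk st]} : Set (List (A1 β))))).Finite :=
    Set.finite_iUnion fun q => (Set.finite_singleton _).insert _
  have h3 : ((⋃ q : T.Q, ({cs (e q), [mk en]} : Set (List (A1 β))))).Finite :=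
    Set.finite_iUnion fun q => (Set.finite_singleton _).insert _
  refine (((h2.prod (h1.prod h3))).image
    (fun p : List (A1 β) × (T.Q × List β) × List (A1 β) => entry p.1 p.2.1.2 p.2.2)).subset ?_
  rintro x ⟨q, r, u, s, t, h4, h5, h6, rfl⟩
  refine ⟨(s, (r, u), t), ⟨?_, ?_, ?_⟩, rfl⟩
  · refine Set.mem_iUnion.2 ⟨q, ?_⟩
    rcases h5 with h | h
    · exact Or.inl h
    · exact Or.inr h.1
  · exact Set.mem_iUnion.2 ⟨q, h4⟩
  · refine Set.mem_iUnion.2 ⟨r, ?_⟩
    rcases h6 with h | h
    · exact Or.inl h
    · exact Or.inr h.1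

/-- the list of the entries of the letter `a` -/
noncomputable def lst (a : α) : List (List (A1 β)) := (entries_fin T e a).toFinset.toList

theorem mem_lst (a : α) (x : List (A1 β)) : x ∈ lst T e a ↔ x ∈ Entries T e a := by
  simp [lst]

/-- the homomorphism -/
noncomputable def hom (a : α) : List (A1 β) := (lst T e a).flatten ++ [mk bar]

theorem src_nm {q : T.Q} {s : List (A1 β)} (h : Src T e q s) :
    mk lt ∉ s ∧ mk bar ∉ s := by
  rcases h with rfl | ⟨rfl, -⟩
  · constructor <;> · intro h; have := List.eq_of_mem_replicate h; simp [mk] at this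
  · constructor <;> simp [mk]

theorem tgt_nm {q : T.Q} {s : List (A1 β)} (h : Tgt T e q s) :
    mk lt ∉ s ∧ mk bar ∉ s := by
  rcases h with rfl | ⟨rfl, -⟩
  · constructor <;> · intro h; have := List.eq_of_mem_replicate h; simp [mk] at this
  · constructor <;> simp [mk]

theorem lst_form (a : α) : ∀ x ∈ lst T e a, ∃ x', x = mk lt :: x' ∧ mk lt ∉ x' := by
  intro x hx
  rw [mem_lst] at hx
  obtain ⟨q, r, u, s, t, h4, h5, h6, rfl⟩ := hx
  refine ⟨_, rfl, ?_⟩
  have h7 := src_nm T e h5
  have h8 := tgt_nm T e h6
  simp only [List.mem_append, List.mem_cons, List.mem_map, List.not_mem_nil, or_false, not_or]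
  refine ⟨h7.1, by simp [mk], by simp [mk], by simp [mk], h8.1, by simp [mk]⟩

theorem lst_bar (a : α) : ∀ x ∈ lst T e a, mk bar ∉ x := by
  intro x hx
  rw [mem_lst] at hx
  obtain ⟨q, r, u, s, t, h4, h5, h6, rfl⟩ := hx
  have h7 := src_nm T e h5
  have h8 := tgt_nm T e h6
  unfold entry
  simp only [List.mem_append, List.mem_cons, List.mem_map, List.not_mem_nil, or_false, not_or]
  refine ⟨by simp [mk], h7.2, by simp [mk], by simp [mk], by simp [mk], h8.2, by simp [mk]⟩

theorem flatten_bar {l : List (List (A1 β))} (h : ∀ x ∈ l, mk bar ∉ x) : mk bar ∉ l.flatten := by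
  intro h'
  obtain ⟨x, h1, h2⟩ := List.mem_flatten.1 h'
  exact h x h1 h2

/-- the entry found in the image of a word -/
theorem find_in {w : List α} {N z : List (A1 β)} (hN : mk bar ∉ N)
    (h : w.flatMap (hom T e) = N ++ (mk lt :: z)) :
    ∃ a w' q r u s t, ∃ R, w = a :: w' ∧ (r, u) ∈ T.δ q a ∧ Src T e q s ∧ Tgt T e r t ∧
      mk bar ∉ R ∧
      z = s ++ (mk m1 :: (u.map Sum.inl ++ (mk m2 :: (t ++ (mk gt :: (R ++ (mk bar ::
        w'.flatMap (hom T e)))))))) := by
  cases w with
  | nil => simp at h
  | cons a w' =>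
    rw [List.flatMap_cons] at h
    unfold hom at h
    rw [List.append_assoc, List.singleton_append] at h
    obtain ⟨l₁, x, l₂, h1, h2, h3⟩ := find_entry (lst_form T e a) hN h
    have hx : x ∈ lst T e a := by rw [h1]; simp
    have hb : mk bar ∉ l₂.flatten := flatten_bar (fun y hy => lst_bar T e a y (by rw [h1]; simp [hy]))
    rw [mem_lst] at hx
    obtain ⟨q, r, u, s, t, h4, h5, h6, rfl⟩ := hx
    refine ⟨a, w', q, r, u, s, t, l₂.flatten, rfl, h4, h5, h6, hb, ?_⟩
    unfold entry at h3
    rw [List.cons_append] at h3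
    have h7 := (List.cons.inj h3).2
    rw [h7]
    simp only [List.append_assoc, List.cons_append, List.nil_append]
    rfl

theorem tgt_shape {r : T.Q} {t : List (A1 β)} (h : Tgt T e r t) :
    (t = cs (e r)) ∨ (t = [mk en] ∧ r ∈ T.F) := h

/-- From a compatible word to a run. -/
theorem run_of_after (he : Function.Injective e) {v : List β} {x : List (A1 β)} (h : After v x) :
    ∀ (u : List β) (r : T.Q) (t R : List (A1 β)) (w : List α), Tgt T e r t → mk bar ∉ R →
      x = u.map Sum.inl ++ (mk m2 :: (t ++ (mk gt :: (R ++ (mk bar :: w.flatMap (hom T e)))))) →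
      ∃ f ∈ T.F, ∃ v', v = u ++ v' ∧ T.Run r w v' f := by
  induction h with
  | @letter a v x h ih =>
    intro u r t R w ht hR hx
    cases u with
    | nil => simp [mk] at hx
    | cons b u =>
      rw [List.map_cons, List.cons_append] at hx
      obtain ⟨h1, h2⟩ := List.cons.inj hx
      obtain ⟨f, hf, v', h3, h4⟩ := ih u r t R w ht hR h2
      refine ⟨f, hf, v', ?_, h4⟩
      rw [h3, Sum.inl_injective h1]
      rfl
  | @jump j N₁ N₂ v x hN₁ hN₂ h ih =>
    intro u r t R w ht hR hx
    cases u with
    | cons b u => simp [mk] at hx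
    | nil =>
      rw [List.map_nil, List.nil_append] at hx
      have hx := (List.cons.inj hx).2
      rcases ht with rfl | ⟨rfl, -⟩
      · obtain ⟨h1, -, h2⟩ := cs_cancel (by simp [mk]) (by simp [mk]) hx
        obtain ⟨h3, h4⟩ := sep_cancel hN₁ hR h2
        obtain ⟨a, w', q, r', u', s, t', R', rfl, h5, h6, h7, h8, h9⟩ := find_in T e hN₂ h4.symm
        rcases h6 with rfl | ⟨rfl, -⟩
        · obtain ⟨h10, -, h11⟩ := cs_cancel (by simp [mk]) (by simp [mk]) h9
          obtain ⟨f, hf, v', h12, h13⟩ := ih u' r' t' R' w' h7 h8 h11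
          have hq : q = r := he (by rw [← h10, h1])
          subst hq
          exact ⟨f, hf, v, rfl, h12 ▸ RT.Run.cons h5 h13⟩
        · exfalso
          cases j with
          | zero => simp [cs, mk] at h9
          | succ j => simp [cs, List.replicate_succ, mk] at h9
      · exfalso
        cases j with
        | zero => simp [cs, mk] at hx
        | succ j => simp [cs, List.replicate_succ, mk] at hx
  | @stop N hN =>
    intro u r t R w ht hR hx
    cases u with
    | cons b u => simp [mk] at hx
    | nil =>
      rw [List.map_nil, List.nil_append] at hx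
      have hx := (List.cons.inj hx).2
      rcases ht with rfl | ⟨rfl, hr⟩
      · exfalso
        cases h0 : e r with
        | zero => rw [h0] at hx; simp [cs, mk] at hx
        | succ j => rw [h0] at hx; simp [cs, List.replicate_succ, mk] at hx
      · rw [List.singleton_append] at hx
        have hx := (List.cons.inj (List.cons.inj hx).2).2
        obtain ⟨h1, h2⟩ := sep_cancel hN hR hx
        cases w with
        | nil => exact ⟨r, hr, [], rfl, RT.Run.nil r⟩
        | cons a w =>
          rw [List.flatMap_cons] at h2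
          unfold hom at h2
          simp at h2

theorem after_letters (u : List β) {v : List β} {x : List (A1 β)} (h : After v x) :
    After (u ++ v) (u.map Sum.inl ++ x) := by
  induction u with
  | nil => exact h
  | cons a u ih => exact After.letter ih

/-- From a run to a compatible word. -/
theorem after_of_run {q f : T.Q} {w : List α} {v : List β} (h : T.Run q w v f) (hf : f ∈ T.F)
    (hw : w ≠ []) (s : List (A1 β)) (hs : Src T e q s) :
    ∃ N x, mk bar ∉ N ∧ w.flatMap (hom T e) = N ++ (mk lt :: (s ++ (mk m1 :: x))) ∧ After v x := by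
  induction h generalizing s with
  | nil q => exact absurd rfl hw
  | @cons q r f a w u v h1 h2 ih =>
    by_cases hw' : w = []
    · subst hw'
      cases h2
      have hx : entry s u [mk en] ∈ lst T e a := by
        rw [mem_lst]
        exact ⟨q, r, u, s, _, h1, hs, Or.inr ⟨rfl, hf⟩, rfl⟩
      obtain ⟨l₁, l₂, hl⟩ := List.append_of_mem hx
      refine ⟨l₁.flatten, u.map Sum.inl ++ (mk m2 :: mk en :: mk gt :: (l₂.flatten ++ [mk bar])),
        flatten_bar (fun y hy => lst_bar T e a y (by rw [hl]; simp [hy])), ?_,
        after_letters u (After.stop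
          (flatten_bar (fun y hy => lst_bar T e a y (by rw [hl]; simp [hy]))))⟩
      rw [List.flatMap_cons, List.flatMap_nil]
      unfold hom
      rw [hl]
      simp [entry]
    · obtain ⟨N, x, h3, h4, h5⟩ := ih hf hw' (cs (e r)) (Or.inl rfl)
      have hx : entry s u (cs (e r)) ∈ lst T e a := by
        rw [mem_lst]
        exact ⟨q, r, u, s, _, h1, hs, Or.inl rfl, rfl⟩
      obtain ⟨l₁, l₂, hl⟩ := List.append_of_mem hx
      refine ⟨l₁.flatten, u.map Sum.inl ++ (mk m2 :: (cs (e r) ++ (mk gt :: (l₂.flatten ++
          (mk bar :: (N ++ (mk lt :: (cs (e r) ++ (mk m1 :: x)))))))) ),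
        flatten_bar (fun y hy => lst_bar T e a y (by rw [hl]; simp [hy])), ?_,
        after_letters u (After.jump
          (flatten_bar (fun y hy => lst_bar T e a y (by rw [hl]; simp [hy]))) h3 h5)⟩
      rw [List.flatMap_cons, h4]
      unfold hom
      rw [hl]
      simp [entry]

/-- The inverse image under the transducer is the inverse image of `Enc L` under the
homomorphism. -/
theorem pre_iff (he : Function.Injective e) (L : Set (List β)) (w : List α) (hw : w ≠ []) :
    w ∈ T.pre L ↔ w.flatMap (hom T e) ∈ Enc L := by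
  constructor
  · rintro ⟨q, hq, f, hf, v, hv, h⟩
    obtain ⟨N, x, h1, h2, h3⟩ := after_of_run T e h hf hw [mk st] (Or.inr ⟨rfl, hq⟩)
    exact ⟨v, hv, N, x, h1, h2, h3⟩
  · rintro ⟨v, hv, N, x, h1, h2, h3⟩
    obtain ⟨a, w', q, r', u', s, t', R', rfl, h5, h6, h7, h8, h9⟩ := find_in T e h1 h2
    rcases h6 with rfl | ⟨rfl, hq⟩
    · exfalso
      cases h0 : e q with
      | zero => rw [h0] at h9; simp [cs, mk] at h9
      | succ j => rw [h0] at h9; simp [cs, List.replicate_succ, mk] at h9
    · rw [List.singleton_append] at h9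
      have h9 := (List.cons.inj (List.cons.inj h9).2).2
      obtain ⟨f, hf, v', h10, h11⟩ := run_of_after T e he h3 u' r' t' R' w' h7 h8 h9
      exact ⟨q, hq, f, hf, v, hv, h10 ▸ RT.Run.cons h5 h11⟩

theorem nil_not_mem_Enc (L : Set (List β)) : ([] : List (A1 β)) ∉ Enc L := by
  rintro ⟨v, hv, N, x, h1, h2, h3⟩
  simp at h2

end hom

end Pool.Agent.KS6_13.EH
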