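import Pool.Agent.KS6_13.EH.Afl3

/-!
# The iterated marked languages
-/

set_option autoImplicit false

namespace Pool.Agent.KS6_13.EH

/-- the letters: those of all the alphabets, and one marker for each alphabet -/
abbrev Gm (ι : Type) (α : ι → Type) := (Σ i, α i) ⊕ ι

variable {ι : Type} {α : ι → Type}

/-- the letter `a` of the alphabet with index `i` -/
def emb (i : ι) (a : α i) : Gm ι α := Sum.inl ⟨i, a⟩

/-- the word `v` with its marker -/
def wd (i : ι) (v : List (α i)) : List (Gm ι α) := v.map (emb i) ++ [Sum.inr i]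

/-- the iterated marked union -/
def StarL (L : ∀ i, Set (List (α i))) : Set (List (Gm ι α)) :=
  {x | ∃ l : List (Σ i, List (α i)), (∀ p ∈ l, p.2 ∈ L p.1) ∧ x = l.flatMap (fun p => wd p.1 p.2)}

/-- markers -/
def Mr (x : Gm ι α) : Prop := x.isRight = true

theorem Mr_inr (i : ι) : Mr (Sum.inr i : Gm ι α) := rfl

theorem StarL_nil (L : ∀ i, Set (List (α i))) : [] ∈ StarL L := ⟨[], by simp, rfl⟩

theorem StarL_endy (L : ∀ i, Set (List (α i))) : ∀ u ∈ StarL L, Endy Mr u := by
  rintro _ ⟨l, -, rfl⟩
  rcases l.eq_nil_or_concat with rfl | ⟨l', p, rfl⟩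
  · exact endy_nil _
  · rw [List.concat_eq_append, List.flatMap_append, List.flatMap_cons, List.flatMap_nil,
      List.append_nil]
    unfold wd
    rw [← List.append_assoc, endy_append _ (by simp)]
    intro x hx
    have hx' : x = Sum.inr p.1 := by simpa using hx.symm
    rw [hx']
    rfl

theorem sepE {γ : Type} {E : γ → Prop} {M N X Y : List γ} {x y : γ} (hM : ∀ m ∈ M, ¬ E m)
    (hN : ∀ n ∈ N, ¬ E n) (hx : E x) (hy : E y) (h : M ++ (x :: X) = N ++ (y :: Y)) :
    M = N ∧ x = y ∧ X = Y := by
  induction M generalizing N with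
  | nil =>
    cases N with
    | nil => simpa using h
    | cons n N =>
      simp only [List.nil_append, List.cons_append, List.cons.injEq] at h
      exact absurd (h.1 ▸ hx) (hN n List.mem_cons_self)
  | cons m M ih =>
    cases N with
    | nil =>
      simp only [List.nil_append, List.cons_append, List.cons.injEq] at h
      exact absurd (h.1.symm ▸ hy) (hM m List.mem_cons_self)
    | cons n N =>
      simp only [List.cons_append, List.cons.injEq] at h
      obtain ⟨h1, h2⟩ := ih (fun m hm => hM m (List.mem_cons_of_mem _ hm))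
        (fun n hn => hN n (List.mem_cons_of_mem _ hn)) h.2
      exact ⟨by rw [h.1, h1], h2⟩

theorem firstE {γ : Type} {E : γ → Prop} (u : List γ) (h : ∃ x ∈ u, E x) :
    ∃ M y u', u = M ++ (y :: u') ∧ (∀ m ∈ M, ¬ E m) ∧ E y := by
  classical
  induction u with
  | nil => simp at h
  | cons a u ih =>
    by_cases ha : E a
    · exact ⟨[], a, u, rfl, by simp, ha⟩
    · obtain ⟨x, hx, hE⟩ := h
      rcases List.mem_cons.1 hx with rfl | hx
      · exact absurd hE ha
      · obtain ⟨M, y, u', rfl, h1, h2⟩ := ih ⟨x, hx, hE⟩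
        refine ⟨a :: M, y, u', rfl, ?_, h2⟩
        intro m hm
        rcases List.mem_cons.1 hm with rfl | hm
        · exact ha
        · exact h1 m hm

theorem emb_not (i : ι) (v : List (α i)) : ∀ x ∈ v.map (emb i), ¬ Mr (x : Gm ι α) := by
  intro x hx
  obtain ⟨a, -, rfl⟩ := List.mem_map.1 hx
  simp [Mr, emb]

theorem StarL_append (L : ∀ i, Set (List (α i))) (u v : List (Gm ι α)) (hu : Endy Mr u) :
    u ++ v ∈ StarL L ↔ u ∈ StarL L ∧ v ∈ StarL L := by
  constructor
  · rintro ⟨l, hl, h⟩
    induction l generalizing u with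
    | nil =>
      obtain ⟨rfl, rfl⟩ := List.append_eq_nil_iff.1 h
      exact ⟨StarL_nil L, StarL_nil L⟩
    | cons p l ih =>
      by_cases h0 : u = []
      · subst h0
        exact ⟨StarL_nil L, p :: l, hl, h⟩
      · obtain ⟨M, y, u', rfl, h1, h2⟩ : ∃ M y u', u = M ++ (y :: u') ∧ (∀ m ∈ M, ¬ Mr m) ∧
            Mr y := by
          refine firstE u ⟨u.getLast h0, List.getLast_mem h0, hu _ ?_⟩
          rw [List.getLast?_eq_some_getLast h0]
          exact rfl
        rw [List.flatMap_cons, List.append_assoc, List.cons_append] at h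
        unfold wd at h
        rw [List.append_assoc, List.singleton_append] at h
        obtain ⟨rfl, rfl, h3⟩ := sepE h1 (emb_not p.1 p.2) h2 (Mr_inr p.1) h
        have h4 : Endy Mr u' := by
          by_cases h5 : u' = []
          · rw [h5]
            exact endy_nil _
          · rw [show p.2.map (emb p.1) ++ (Sum.inr p.1 :: u') =
              (p.2.map (emb p.1) ++ [Sum.inr p.1]) ++ u' by simp, endy_append _ h5] at hu
            exact hu
        obtain ⟨⟨l', h5, h6⟩, h7⟩ := ih u' h4 (fun q hq => hl q (List.mem_cons_of_mem _ hq)) h3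
        refine ⟨⟨p :: l', ?_, ?_⟩, h7⟩
        · intro q hq
          rcases List.mem_cons.1 hq with rfl | hq
          · exact hl _ List.mem_cons_self
          · exact h5 q hq
        · rw [List.flatMap_cons, ← h6]
          simp [wd]
  · rintro ⟨⟨l, h1, rfl⟩, ⟨l', h2, rfl⟩⟩
    refine ⟨l ++ l', ?_, by rw [List.flatMap_append]⟩
    intro p hp
    rcases List.mem_append.1 hp with hp | hp
    · exact h1 p hp
    · exact h2 p hp

theorem emb_inj (i : ι) : Function.Injective (emb i : α i → Gm ι α) := by
  intro a b h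
  have h1 : (⟨i, a⟩ : Σ i, α i) = ⟨i, b⟩ := Sum.inl_injective h
  exact eq_of_heq (Sigma.mk.inj h1).2

theorem StarL_wd (L : ∀ i, Set (List (α i))) (i : ι) (v : List (α i)) :
    v.map (emb i) ++ [Sum.inr i] ∈ StarL L ↔ v ∈ L i := by
  constructor
  · rintro ⟨l, hl, h⟩
    cases l with
    | nil => simp at h
    | cons p l =>
      obtain ⟨j, w⟩ := p
      rw [List.flatMap_cons] at h
      unfold wd at h
      rw [List.append_assoc, List.singleton_append] at h
      obtain ⟨h1, h2, -⟩ := sepE (emb_not i v) (emb_not j w) (Mr_inr i) (Mr_inr j) h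
      have h3 : i = j := Sum.inr_injective h2
      subst h3
      have h4 : v = w := List.map_injective_iff.2 (emb_inj i) h1
      subst h4
      exact hl ⟨i, v⟩ List.mem_cons_self
  · intro h
    refine ⟨[⟨i, v⟩], ?_, by simp [wd]⟩
    intro p hp
    rw [List.mem_singleton.1 hp]
    exact h

theorem StarL_emb (L : ∀ i, Set (List (α i))) (i : ι) (v : List (α i))
    (h : v.map (emb i) ∈ StarL L) : v = [] := by
  by_contra hv
  have h1 : (v.map (emb i) : List (Gm ι α)) ≠ [] := by simpa using hv
  have h2 := StarL_endy L _ h ((v.map (emb i)).getLast h1) (by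
    rw [List.getLast?_eq_some_getLast h1]
    exact rfl)
  exact emb_not i v _ (List.getLast_mem h1) h2

/-- All languages of the AFL are inverse images of the iterated marked union. -/
theorem AFL_StarL [∀ i, Finite (α i)] (L : ∀ i, Set (List (α i))) (β : Type)
    (A : Set (List β)) (hA : AFL L β A) : ∃ T : RT β (Gm ι α), T.pre (StarL L) = A :=
  (AFL_pre L (StarL L) Mr (StarL_nil L) (StarL_endy L) (StarL_append L) emb Sum.inr
    (StarL_wd L) (StarL_emb L) β A hA).2

end Pool.Agent.KS6_13.EH
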