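import Pool.Agent.KS6_13.EH.StarL
import Pool.Agent.KS6_13.EH.Lang

/-!
# The iterated marked union of ETOL languages is an ETOL language
-/

set_option autoImplicit false
set_option linter.unusedSectionVars false

namespace Pool.Agent.KS6_13.EH

open Pool.Agent.Helper450.ET Pool.Agent.Y551.EL

variable {ι : Type} {α : ι → Type}

/-- the nonterminals -/
abbrev SN (G : ∀ i, ETOL (α i)) := (Σ i, α i ⊕ (G i).ν) ⊕ Bool

/-- the symbols -/
abbrev SS (G : ∀ i, ETOL (α i)) := Gm ι α ⊕ SN G

section

variable (G : ∀ i, ETOL (α i))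

/-- primed symbols -/
def pm (i : ι) (σ : α i ⊕ (G i).ν) : SS G := Sum.inr (Sum.inl ⟨i, σ⟩)

/-- the start symbol -/
def ZZ : SS G := Sum.inr (Sum.inr true)

/-- the dead symbol -/
def DD : SS G := Sum.inr (Sum.inr false)

/-- terminal letters -/
def tl (x : Gm ι α) : SS G := Sum.inl x

/-- one table for each system -/
def simS (t : ∀ i, Option (G i).T) : SS G → Set (List (SS G))
  | Sum.inl x => {[tl G x]}
  | Sum.inr (Sum.inl ⟨i, σ⟩) => match t i with
    | none => {[pm G i σ]}
    | some t => (List.map (pm G i)) '' (G i).tab t σ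
  | Sum.inr (Sum.inr b) => {[Sum.inr (Sum.inr b)]}

/-- the start of a factor -/
def startS : SS G → Set (List (SS G))
  | Sum.inl x => {[tl G x]}
  | Sum.inr (Sum.inl s) => {[Sum.inr (Sum.inl s)]}
  | Sum.inr (Sum.inr true) =>
    insert [] (Set.range fun i => (G i).axm.map (pm G i) ++ [tl G (Sum.inr i), ZZ G])
  | Sum.inr (Sum.inr false) => {[DD G]}

/-- the image of a primed symbol -/
def swS (i : ι) : α i ⊕ (G i).ν → List (SS G)
  | Sum.inl a => [tl G (emb i a)]
  | Sum.inr _ => [DD G]

/-- the end of a factor -/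
def endS : SS G → Set (List (SS G))
  | Sum.inl x => {[tl G x]}
  | Sum.inr (Sum.inl ⟨i, σ⟩) => {swS G i σ}
  | Sum.inr (Sum.inr b) => {[Sum.inr (Sum.inr b)]}

/-- the tables -/
def tabS : (∀ i, Option (G i).T) ⊕ Bool → SS G → Set (List (SS G))
  | Sum.inl t => simS G t
  | Sum.inr true => startS G
  | Sum.inr false => endS G

theorem tabS_fin [Finite ι] (t : (∀ i, Option (G i).T) ⊕ Bool) (s : SS G) :
    (tabS G t s).Finite := by
  rcases t with t | (_ | _)
  · rcases s with x | (⟨i, σ⟩ | b)
    · exact Set.finite_singleton _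
    · show (simS G t (pm G i σ)).Finite
      unfold simS pm
      simp only
      cases t i with
      | none => exact Set.finite_singleton _
      | some t => exact ((G i).tab_fin t σ).image _
    · exact Set.finite_singleton _
  · rcases s with x | (⟨i, σ⟩ | b)
    · exact Set.finite_singleton _
    · exact Set.finite_singleton _
    · exact Set.finite_singleton _
  · rcases s with x | (⟨i, σ⟩ | (_ | _))
    · exact Set.finite_singleton _
    · exact Set.finite_singleton _
    · exact Set.finite_singleton _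
    · exact (Set.finite_range _).insert _

theorem tabS_ne (t : (∀ i, Option (G i).T) ⊕ Bool) (s : SS G) : (tabS G t s).Nonempty := by
  rcases t with t | (_ | _)
  · rcases s with x | (⟨i, σ⟩ | b)
    · exact Set.singleton_nonempty _
    · show (simS G t (pm G i σ)).Nonempty
      unfold simS pm
      simp only
      cases t i with
      | none => exact Set.singleton_nonempty _
      | some t => exact ((G i).tab_ne t σ).image _
    · exact Set.singleton_nonempty _
  · rcases s with x | (⟨i, σ⟩ | b)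
    · exact Set.singleton_nonempty _
    · exact Set.singleton_nonempty _
    · exact Set.singleton_nonempty _
  · rcases s with x | (⟨i, σ⟩ | (_ | _))
    · exact Set.singleton_nonempty _
    · exact Set.singleton_nonempty _
    · exact Set.singleton_nonempty _
    · exact ⟨_, Or.inl rfl⟩

/-- the system for the iterated marked union -/
def starSys [Finite ι] [∀ i, Finite (α i)] : ETOL (Gm ι α) where
  ν := SN G
  T := (∀ i, Option (G i).T) ⊕ Bool
  finν := by
    have := fun i => (G i).finν
    infer_instance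
  finT := by
    have := fun i => (G i).finT
    infer_instance
  tab := tabS G
  tab_fin := tabS_fin G
  tab_ne := tabS_ne G
  axm := [ZZ G]

/-! ### the steps -/

theorem tabS_tl (t : (∀ i, Option (G i).T) ⊕ Bool) (x : Gm ι α) :
    tabS G t (tl G x) = {[tl G x]} := by
  rcases t with t | (_ | _) <;> rfl

theorem tabS_DD (t : (∀ i, Option (G i).T) ⊕ Bool) : tabS G t (DD G) = {[DD G]} := by
  rcases t with t | (_ | _) <;> rfl

theorem step_tl (t : (∀ i, Option (G i).T) ⊕ Bool) (w : List (Gm ι α)) (m : List (SS G)) :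
    Step (tabS G t) (w.map (tl G)) m ↔ m = w.map (tl G) := by
  refine step_const _ _ _ ?_
  intro s hs
  obtain ⟨x, -, rfl⟩ := List.mem_map.1 hs
  exact tabS_tl G t x

theorem step_DD (t : (∀ i, Option (G i).T) ⊕ Bool) (u m : List (SS G)) (hu : DD G ∈ u)
    (h : Step (tabS G t) u m) : DD G ∈ m := by
  obtain ⟨a, b, rfl⟩ := List.append_of_mem hu
  obtain ⟨a', m', rfl, -, h2⟩ := (step_append _ _ _ _).1 h
  rw [← List.singleton_append, step_append] at h2
  obtain ⟨d, b', rfl, h3, -⟩ := h2
  rw [step_single, tabS_DD] at h3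
  have h3' : d = [DD G] := h3
  rw [h3']
  simp

theorem step_pm_some (i : ι) (t : ∀ i, Option (G i).T) (t' : (G i).T) (ht : t i = some t')
    (v : List (α i ⊕ (G i).ν)) (m : List (SS G)) :
    Step (simS G t) (v.map (pm G i)) m ↔ ∃ v₁, m = v₁.map (pm G i) ∧ Step ((G i).tab t') v v₁ := by
  have e : ∀ σ, simS G t (pm G i σ) = (List.map (pm G i)) '' (G i).tab t' σ := by
    intro σ
    unfold simS pm
    simp only
    rw [ht]
  induction v generalizing m with
  | nil =>
    rw [List.map_nil, step_nil]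
    constructor
    · rintro rfl
      exact ⟨[], rfl, (step_nil _ _).2 rfl⟩
    · rintro ⟨v₁, rfl, h⟩
      rw [step_nil] at h
      rw [h]
      rfl
  | cons s v ih =>
    rw [List.map_cons, ← List.singleton_append, step_append]
    constructor
    · rintro ⟨x, y, rfl, h1, h2⟩
      rw [step_single, e] at h1
      obtain ⟨x₁, h3, rfl⟩ := h1
      obtain ⟨v₁, rfl, h4⟩ := (ih y).1 h2
      refine ⟨x₁ ++ v₁, by rw [List.map_append], ?_⟩
      rw [← List.singleton_append, step_append]
      exact ⟨x₁, v₁, rfl, (step_single _ _ _).2 h3, h4⟩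
    · rintro ⟨v₁, rfl, h⟩
      rw [← List.singleton_append, step_append] at h
      obtain ⟨x₁, v₂, rfl, h3, h4⟩ := h
      rw [step_single] at h3
      exact ⟨x₁.map (pm G i), v₂.map (pm G i), by rw [List.map_append],
        (step_single _ _ _).2 (by rw [e]; exact ⟨x₁, h3, rfl⟩), (ih _).2 ⟨v₂, rfl, h4⟩⟩

theorem step_pm_none (i : ι) (t : ∀ i, Option (G i).T) (ht : t i = none)
    (v : List (α i ⊕ (G i).ν)) (m : List (SS G)) :
    Step (simS G t) (v.map (pm G i)) m ↔ m = v.map (pm G i) := by
  refine step_const _ _ _ ?_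
  intro s hs
  obtain ⟨σ, -, rfl⟩ := List.mem_map.1 hs
  unfold simS pm
  simp only
  rw [ht]

theorem step_pm_start (i : ι) (v : List (α i ⊕ (G i).ν)) (m : List (SS G)) :
    Step (startS G) (v.map (pm G i)) m ↔ m = v.map (pm G i) := by
  refine step_const _ _ _ ?_
  intro s hs
  obtain ⟨σ, -, rfl⟩ := List.mem_map.1 hs
  rfl

theorem step_pm_end (i : ι) (v : List (α i ⊕ (G i).ν)) (m : List (SS G)) :
    Step (endS G) (v.map (pm G i)) m ↔ m = v.flatMap (swS G i) := by
  induction v generalizing m with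
  | nil => rw [List.map_nil, step_nil]; rfl
  | cons s v ih =>
    rw [List.map_cons, ← List.singleton_append, step_append]
    constructor
    · rintro ⟨x, y, rfl, h1, h2⟩
      rw [step_single] at h1
      have h1' : x = swS G i s := h1
      rw [ih] at h2
      rw [h1', h2, List.flatMap_cons]
    · rintro rfl
      exact ⟨swS G i s, v.flatMap (swS G i), by rw [List.flatMap_cons],
        (step_single _ _ _).2 (show _ ∈ ({swS G i s} : Set (List (SS G))) from rfl),
        (ih _).2 rfl⟩

theorem sw_cases (i : ι) (v : List (α i ⊕ (G i).ν)) :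
    DD G ∈ v.flatMap (swS G i) ∨ ∃ w : List (α i), v = w.map Sum.inl := by
  induction v with
  | nil => exact Or.inr ⟨[], rfl⟩
  | cons s v ih =>
    rcases s with a | X
    · rcases ih with h | ⟨w, rfl⟩
      · left
        rw [List.flatMap_cons]
        exact List.mem_append_right _ h
      · exact Or.inr ⟨a :: w, rfl⟩
    · left
      rw [List.flatMap_cons]
      exact List.mem_append_left _ (List.mem_singleton_self _)

theorem sw_inl (i : ι) (w : List (α i)) :
    (w.map Sum.inl : List (α i ⊕ (G i).ν)).flatMap (swS G i) = (w.map (emb i)).map (tl G) := by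
  induction w with
  | nil => rfl
  | cons a w ih =>
    rw [List.map_cons, List.flatMap_cons, ih]
    rfl

/-! ### the invariant -/

/-- the factors -/
def Fac (x : List (SS G)) : Prop :=
  (∃ i v, (∃ ts, Derives (G i).tab ts (G i).axm v) ∧ x = v.map (pm G i) ++ [tl G (Sum.inr i)]) ∨
  ∃ i w, w ∈ (G i).lang ∧ x = (wd i w).map (tl G)

/-- the invariant -/
def InvS (u : List (SS G)) : Prop :=
  DD G ∈ u ∨ ∃ l : List (List (SS G)), (∀ x ∈ l, Fac G x) ∧
    (u = l.flatten ∨ u = l.flatten ++ [ZZ G])

theorem Fac_step (t : (∀ i, Option (G i).T) ⊕ Bool) (x m : List (SS G)) (hx : Fac G x)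
    (h : Step (tabS G t) x m) : DD G ∈ m ∨ Fac G m := by
  rcases hx with ⟨i, v, ⟨ts, hts⟩, rfl⟩ | ⟨i, w, hw, rfl⟩
  · obtain ⟨y, z, rfl, h1, h2⟩ := (step_append _ _ _ _).1 h
    rw [step_single, tabS_tl] at h2
    have h2' : z = [tl G (Sum.inr i)] := h2
    subst h2'
    rcases t with t | (_ | _)
    · cases ht : t i with
      | none =>
        have h3 := (step_pm_none G i t ht v y).1 h1
        subst h3
        exact Or.inr (Or.inl ⟨i, v, ⟨ts, hts⟩, rfl⟩)
      | some t' =>
        obtain ⟨v₁, rfl, h3⟩ := (step_pm_some G i t t' ht v y).1 h1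
        exact Or.inr (Or.inl ⟨i, v₁, ⟨ts ++ [t'], derives_snoc _ _ _ _ _ _ hts h3⟩, rfl⟩)
    · have h3 := (step_pm_end G i v y).1 h1
      subst h3
      rcases sw_cases G i v with h4 | ⟨w, rfl⟩
      · exact Or.inl (List.mem_append_left _ h4)
      · refine Or.inr (Or.inr ⟨i, w, ⟨ts, hts⟩, ?_⟩)
        rw [sw_inl]
        simp [wd]
    · have h3 := (step_pm_start G i v y).1 h1
      subst h3
      exact Or.inr (Or.inl ⟨i, v, ⟨ts, hts⟩, rfl⟩)
  · have h1 := (step_tl G t _ _).1 h
    subst h1
    exact Or.inr (Or.inr ⟨i, w, hw, rfl⟩)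

theorem flat_step (t : (∀ i, Option (G i).T) ⊕ Bool) (l : List (List (SS G)))
    (hl : ∀ x ∈ l, Fac G x) (m : List (SS G)) (h : Step (tabS G t) l.flatten m) :
    DD G ∈ m ∨ ∃ l' : List (List (SS G)), (∀ x ∈ l', Fac G x) ∧ m = l'.flatten := by
  induction l generalizing m with
  | nil =>
    rw [List.flatten_nil, step_nil] at h
    exact Or.inr ⟨[], by simp, h⟩
  | cons x l ih =>
    rw [List.flatten_cons] at h
    obtain ⟨y, z, rfl, h1, h2⟩ := (step_append _ _ _ _).1 h
    rcases Fac_step G t x y (hl x List.mem_cons_self) h1 with h3 | h3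
    · exact Or.inl (List.mem_append_left _ h3)
    · rcases ih (fun x hx => hl x (List.mem_cons_of_mem _ hx)) z h2 with h4 | ⟨l', h4, rfl⟩
      · exact Or.inl (List.mem_append_right _ h4)
      · refine Or.inr ⟨y :: l', ?_, by rw [List.flatten_cons]⟩
        intro x hx
        rcases List.mem_cons.1 hx with rfl | hx
        · exact h3
        · exact h4 x hx

theorem step_ZZ (t : (∀ i, Option (G i).T) ⊕ Bool) (m : List (SS G))
    (h : Step (tabS G t) [ZZ G] m) :
    m = [ZZ G] ∨ m = [] ∨ ∃ i, m = (G i).axm.map (pm G i) ++ [tl G (Sum.inr i), ZZ G] := by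
  rw [step_single] at h
  rcases t with t | (_ | _)
  · exact Or.inl h
  · exact Or.inl h
  · rcases h with h | ⟨i, h⟩
    · exact Or.inr (Or.inl h)
    · exact Or.inr (Or.inr ⟨i, h.symm⟩)

theorem InvS_step (t : (∀ i, Option (G i).T) ⊕ Bool) (u m : List (SS G)) (hu : InvS G u)
    (h : Step (tabS G t) u m) : InvS G m := by
  rcases hu with hu | ⟨l, hl, (rfl | rfl)⟩
  · exact Or.inl (step_DD G t u m hu h)
  · rcases flat_step G t l hl m h with h1 | ⟨l', h1, rfl⟩
    · exact Or.inl h1
    · exact Or.inr ⟨l', h1, Or.inl rfl⟩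
  · obtain ⟨y, z, rfl, h1, h2⟩ := (step_append _ _ _ _).1 h
    rcases flat_step G t l hl y h1 with h3 | ⟨l', h3, rfl⟩
    · exact Or.inl (List.mem_append_left _ h3)
    · rcases step_ZZ G t z h2 with rfl | rfl | ⟨i, rfl⟩
      · exact Or.inr ⟨l', h3, Or.inr rfl⟩
      · exact Or.inr ⟨l', h3, Or.inl (List.append_nil _)⟩
      · refine Or.inr ⟨l' ++ [(G i).axm.map (pm G i) ++ [tl G (Sum.inr i)]], ?_, Or.inr ?_⟩
        · intro x hx
          rcases List.mem_append.1 hx with hx | hx
          · exact h3 x hx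
          · rw [List.mem_singleton.1 hx]
            exact Or.inl ⟨i, (G i).axm, ⟨[], rfl⟩, rfl⟩
        · simp

theorem InvS_derives (ts : List ((∀ i, Option (G i).T) ⊕ Bool)) (u m : List (SS G))
    (hu : InvS G u) (h : Derives (tabS G) ts u m) : InvS G m := by
  induction ts generalizing u with
  | nil =>
    have h' : m = u := h
    subst h'
    exact hu
  | cons t ts ih =>
    obtain ⟨m', h1, h2⟩ := h
    exact ih m' (InvS_step G t u m' hu h1) h2

theorem tl_inj : Function.Injective (tl G) := Sum.inl_injective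

theorem term_flat (l : List (List (SS G))) (hl : ∀ x ∈ l, Fac G x) (w : List (Gm ι α))
    (h : w.map (tl G) = l.flatten) : w ∈ StarL (fun i => (G i).lang) := by
  induction l generalizing w with
  | nil =>
    have h1 : w = [] := by simpa using h
    subst h1
    exact StarL_nil _
  | cons x l ih =>
    rw [List.flatten_cons] at h
    obtain ⟨w₁, w₂, rfl, h1, h2⟩ := List.map_eq_append_iff.1 h
    have h3 : ∃ i v, v ∈ (G i).lang ∧ w₁ = wd i v := by
      rcases hl x List.mem_cons_self with ⟨i, v, ⟨ts, hts⟩, rfl⟩ | ⟨i, v, hv, rfl⟩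
      · obtain ⟨w₃, w₄, rfl, h4, h5⟩ := List.map_eq_append_iff.1 h1
        have hv : v = [] := by
          cases v with
          | nil => rfl
          | cons σ v =>
            cases w₃ with
            | nil => simp at h4
            | cons a w₃ => simp [tl, pm] at h4
        subst hv
        have hw3 : w₃ = [] := by simpa using h4
        subst hw3
        refine ⟨i, [], ⟨ts, hts⟩, ?_⟩
        have h6 : w₄.map (tl G) = [Sum.inr i].map (tl G) := h5
        rw [List.map_injective_iff.2 (tl_inj G) h6]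
        rfl
      · exact ⟨i, v, hv, List.map_injective_iff.2 (tl_inj G) h1⟩
    obtain ⟨i, v, hv, rfl⟩ := h3
    obtain ⟨l', h4, rfl⟩ := ih (fun x hx => hl x (List.mem_cons_of_mem _ hx)) w₂ h2
    refine ⟨⟨i, v⟩ :: l', ?_, by rw [List.flatMap_cons]⟩
    intro p hp
    rcases List.mem_cons.1 hp with rfl | hp
    · exact hv
    · exact h4 p hp

theorem derives_app {S T : Type} (tab : T → S → Set (List S)) (ts ts' : List T)
    (u v m : List S) (h : Derives tab ts u v) (h' : Derives tab ts' v m) :
    Derives tab (ts ++ ts') u m := by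
  induction ts generalizing u with
  | nil =>
    have h0 : v = u := h
    subst h0
    exact h'
  | cons t ts ih =>
    obtain ⟨m', h1, h2⟩ := h
    exact ⟨m', h1, ih m' h2⟩

theorem starS_lang [Finite ι] [∀ i, Finite (α i)] :
    (starSys G).lang = StarL (fun i => (G i).lang) := by
  classical
  ext x
  constructor
  · rintro ⟨ts, h⟩
    have h0 : InvS G [ZZ G] := Or.inr ⟨[], by simp, Or.inr rfl⟩
    rcases InvS_derives G ts _ _ h0 h with h1 | ⟨l, hl, (h1 | h1)⟩
    · obtain ⟨a, -, ha⟩ := List.mem_map.1 h1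
      simp [DD] at ha
    · exact term_flat G l hl x h1
    · exfalso
      have h2 : ZZ G ∈ x.map (tl G) := by
        have h3 : x.map (tl G) = l.flatten ++ [ZZ G] := h1
        rw [h3]
        simp
      obtain ⟨a, -, ha⟩ := List.mem_map.1 h2
      simp [ZZ, tl] at ha
  · rintro ⟨l, hl, rfl⟩
    -- the simulation of one factor
    have s1 : ∀ (i : ι) (pre : List (Gm ι α)) (ts : List (G i).T) (v v' : List (α i ⊕ (G i).ν)),
        Derives (G i).tab ts v v' → ∃ ts' : List ((∀ i, Option (G i).T) ⊕ Bool),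
          Derives (tabS G) ts'
            (pre.map (tl G) ++ (v.map (pm G i) ++ ([Sum.inr i].map (tl G) ++ [ZZ G])))
            (pre.map (tl G) ++ (v'.map (pm G i) ++ ([Sum.inr i].map (tl G) ++ [ZZ G]))) := by
      intro i pre ts
      induction ts with
      | nil =>
        intro v v' h
        have h0 : v' = v := h
        subst h0
        exact ⟨[], rfl⟩
      | cons t ts ih =>
        rintro v v' ⟨v₁, h1, h2⟩
        obtain ⟨ts', h3⟩ := ih v₁ v' h2
        refine ⟨Sum.inl (Function.update (fun _ => none) i (some t)) :: ts', _, ?_, h3⟩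
        refine (step_append _ _ _ _).2 ⟨_, _, rfl, (step_tl G _ _ _).2 rfl,
          (step_append _ _ _ _).2 ⟨_, _, rfl,
            (step_pm_some G i _ t (Function.update_self _ _ _) _ _).2 ⟨v₁, rfl, h1⟩,
            (step_append _ _ _ _).2 ⟨_, _, rfl, (step_tl G _ _ _).2 rfl, ?_⟩⟩⟩
        exact (step_single _ _ _).2 rfl
    have s2 : ∀ (l : List (Σ i, List (α i))), (∀ p ∈ l, p.2 ∈ (G p.1).lang) →
        ∀ pre : List (Gm ι α), ∃ ts : List ((∀ i, Option (G i).T) ⊕ Bool),
          Derives (tabS G) ts (pre.map (tl G) ++ [ZZ G])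
            ((pre ++ l.flatMap (fun p => wd p.1 p.2)).map (tl G)) := by
      intro l
      induction l with
      | nil =>
        intro _ pre
        refine ⟨[Sum.inr true], _, ?_, rfl⟩
        rw [List.flatMap_nil, List.append_nil]
        have h1 : Step (tabS G (Sum.inr true)) (pre.map (tl G) ++ [ZZ G])
            (pre.map (tl G) ++ []) :=
          (step_append _ _ _ _).2 ⟨_, [], rfl, (step_tl G _ _ _).2 rfl,
            (step_single _ _ _).2 (Or.inl rfl)⟩
        rwa [List.append_nil] at h1
      | cons p l ih =>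
        intro hl pre
        obtain ⟨i, w⟩ := p
        obtain ⟨ts, hts⟩ : w ∈ (G i).lang := hl ⟨i, w⟩ List.mem_cons_self
        obtain ⟨ts₁, h1⟩ := s1 i pre ts _ _ hts
        obtain ⟨ts₂, h2⟩ := ih (fun p hp => hl p (List.mem_cons_of_mem _ hp)) (pre ++ wd i w)
        refine ⟨Sum.inr true :: (ts₁ ++ (Sum.inr false :: ts₂)), _, ?_,
          derives_app _ _ _ _ _ _ h1 ⟨(pre ++ wd i w).map (tl G) ++ [ZZ G], ?_, ?_⟩⟩
        · exact (step_append _ _ _ _).2 ⟨_, _, rfl, (step_tl G _ _ _).2 rfl,
            (step_single _ _ _).2 (Or.inr ⟨i, rfl⟩)⟩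
        · have h3 : (pre ++ wd i w).map (tl G) ++ [ZZ G] = pre.map (tl G) ++
              ((w.map (emb i)).map (tl G) ++ ([Sum.inr i].map (tl G) ++ [ZZ G])) := by
            simp [wd]
          rw [h3]
          refine (step_append _ _ _ _).2 ⟨_, _, rfl, (step_tl G _ _ _).2 rfl,
            (step_append _ _ _ _).2 ⟨_, _, rfl,
              (step_pm_end G i _ _).2 (sw_inl G i w).symm,
              (step_append _ _ _ _).2 ⟨_, _, rfl, (step_tl G _ _ _).2 rfl, ?_⟩⟩⟩
          exact (step_single _ _ _).2 rfl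
        · rw [List.flatMap_cons, ← List.append_assoc]
          exact h2
    obtain ⟨ts, h⟩ := s2 l hl []
    exact ⟨ts, h⟩

end

theorem starS_card {m : ℕ} {α : Fin m → Type} [∀ i, Finite (α i)] (G : ∀ i, ETOL (α i)) :
    Nat.card (Gm (Fin m) α ⊕ (starSys G).ν) ≤
      2 * (∑ i, Nat.card (α i ⊕ (G i).ν)) + m + 2 := by
  have := fun i => (G i).finν
  have h1 : Nat.card (Gm (Fin m) α ⊕ (starSys G).ν) =
      ((∑ i, Nat.card (α i)) + m) + ((∑ i, Nat.card (α i ⊕ (G i).ν)) + 2) := by
    show Nat.card (((Σ i, α i) ⊕ Fin m) ⊕ ((Σ i, α i ⊕ (G i).ν) ⊕ Bool)) = _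
    rw [Nat.card_sum, Nat.card_sum, Nat.card_sum, Nat.card_sigma, Nat.card_sigma]
    simp
  have h2 : (∑ i, Nat.card (α i)) ≤ ∑ i, Nat.card (α i ⊕ (G i).ν) := by
    refine Finset.sum_le_sum fun i _ => ?_
    rw [Nat.card_sum]
    omega
  rw [h1]
  omega

end Pool.Agent.KS6_13.EH
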