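import Pool.Graph.R_seed8.Y551.EL.Pad
import Pool.Agent.KS6_13.EH.Sem

/-!
# The words which encode a word of an ETOL language form an ETOL language
-/

set_option autoImplicit false

namespace Pool.Agent.KS6_13.EH

open Pool.Agent.Helper450.ET Pool.Agent.Y551.EL

/-- further nonterminals -/
inductive Ex
  | jj | kk | ee | bb | dd
  deriving DecidableEq

instance : Fintype Ex :=
  ⟨{Ex.jj, Ex.kk, Ex.ee, Ex.bb, Ex.dd}, fun x => by cases x <;> simp⟩

theorem card_Ex : Fintype.card Ex = 5 := rfl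

open Mk Ex

/-- the nonterminals of the new system -/
abbrev N1 (β ν : Type) := (β ⊕ ν) ⊕ Ex

/-- the symbols of the new system -/
abbrev S1 (β ν : Type) := A1 β ⊕ N1 β ν

variable {β ν : Type}

abbrev tm (x : A1 β) : S1 β ν := Sum.inl x
abbrev pr (s : β ⊕ ν) : S1 β ν := Sum.inr (Sum.inl s)
abbrev ex (x : Ex) : S1 β ν := Sum.inr (Sum.inr x)

/-- the grammar table -/
def gtab : S1 β ν → Set (List (S1 β ν))
  | Sum.inl x => {[tm x]}
  | Sum.inr (Sum.inl s) => {[pr s]}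
  | Sum.inr (Sum.inr Ex.jj) => {[ex jj], [], [tm (mk m2), ex kk, tm (mk m1), ex jj]}
  | Sum.inr (Sum.inr Ex.kk) =>
    {[ex kk], [tm (mk cc), ex kk, tm (mk cc)], [tm (mk gt), ex ee, ex bb]}
  | Sum.inr (Sum.inr Ex.ee) =>
    insert [ex ee] (insert [tm (mk bar)] {x | ∃ n : A1 β, n ≠ mk bar ∧ x = [tm n, ex ee]})
  | Sum.inr (Sum.inr Ex.bb) =>
    insert [ex bb] (insert [tm (mk lt)] {x | ∃ n : A1 β, n ≠ mk bar ∧ x = [tm n, ex bb]})
  | Sum.inr (Sum.inr Ex.dd) => {[ex dd]}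

/-- the image of a primed symbol under the switch table -/
def swimg : β ⊕ ν → List (S1 β ν)
  | Sum.inl a => [tm (Sum.inl a), ex jj]
  | Sum.inr _ => [ex dd]

/-- the switch table -/
def swtab : S1 β ν → Set (List (S1 β ν))
  | Sum.inl x => {[tm x]}
  | Sum.inr (Sum.inl s) => {swimg s}
  | Sum.inr (Sum.inr e) => {[ex e]}

/-- the simulation of a table -/
def simtab (f : β ⊕ ν → Set (List (β ⊕ ν))) : S1 β ν → Set (List (S1 β ν))
  | Sum.inl x => {[tm x]}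
  | Sum.inr (Sum.inl s) => (List.map pr) '' f s
  | Sum.inr (Sum.inr e) => {[ex e]}

theorem gtab_fin [Finite β] (s : S1 β ν) : (gtab s).Finite := by
  have h : ∀ (f : A1 β → List (S1 β ν)), {x | ∃ n : A1 β, n ≠ mk bar ∧ x = f n}.Finite := by
    intro f
    refine (Set.finite_range f).subset ?_
    rintro x ⟨n, -, rfl⟩
    exact ⟨n, rfl⟩
  rcases s with x | s | e
  · exact Set.finite_singleton _
  · exact Set.finite_singleton _
  · cases e
    · exact ((Set.finite_singleton _).insert _).insert _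
    · exact ((Set.finite_singleton _).insert _).insert _
    · exact ((h _).insert _).insert _
    · exact ((h _).insert _).insert _
    · exact Set.finite_singleton _

theorem gtab_ne (s : S1 β ν) : (gtab s).Nonempty := by
  rcases s with x | s | e
  · exact Set.singleton_nonempty _
  · exact Set.singleton_nonempty _
  · cases e
    · exact ⟨_, Or.inl rfl⟩
    · exact ⟨_, Or.inl rfl⟩
    · exact ⟨_, Or.inl rfl⟩
    · exact ⟨_, Or.inl rfl⟩
    · exact Set.singleton_nonempty _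

/-! ### derivations with the grammar table -/

/-- `n` steps with the grammar table -/
def DG : ℕ → List (S1 β ν) → List (S1 β ν) → Prop
  | 0, u, v => v = u
  | n + 1, u, v => ∃ m, Step gtab u m ∧ DG n m v

theorem DG_append (n : ℕ) (u u' v : List (S1 β ν)) :
    DG n (u ++ u') v ↔ ∃ x y, v = x ++ y ∧ DG n u x ∧ DG n u' y := by
  induction n generalizing u u' with
  | zero =>
    constructor
    · intro h
      exact ⟨u, u', h, rfl, rfl⟩
    · rintro ⟨x, y, rfl, h1, h2⟩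
      have h1' : x = u := h1
      have h2' : y = u' := h2
      rw [h1', h2']
      rfl
  | succ n ih =>
    constructor
    · rintro ⟨m, h1, h2⟩
      obtain ⟨a, b, rfl, h3, h4⟩ := (step_append _ _ _ _).1 h1
      obtain ⟨x, y, rfl, h5, h6⟩ := (ih _ _).1 h2
      exact ⟨x, y, rfl, ⟨a, h3, h5⟩, ⟨b, h4, h6⟩⟩
    · rintro ⟨x, y, rfl, ⟨a, h3, h5⟩, ⟨b, h4, h6⟩⟩
      exact ⟨a ++ b, (step_append _ _ _ _).2 ⟨a, b, rfl, h3, h4⟩, (ih _ _).2 ⟨x, y, rfl, h5, h6⟩⟩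

theorem DG_add (n k : ℕ) (u v : List (S1 β ν)) :
    DG (n + k) u v ↔ ∃ m, DG n u m ∧ DG k m v := by
  induction n generalizing u with
  | zero =>
    rw [Nat.zero_add]
    constructor
    · intro h
      exact ⟨u, rfl, h⟩
    · rintro ⟨m, h, h'⟩
      have h0 : m = u := h
      rwa [h0] at h'
  | succ n ih =>
    rw [Nat.succ_add]
    constructor
    · rintro ⟨m, h1, h2⟩
      obtain ⟨m', h3, h4⟩ := (ih m).1 h2
      exact ⟨m', ⟨m, h1, h3⟩, h4⟩
    · rintro ⟨m', ⟨m, h1, h3⟩, h4⟩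
      exact ⟨m, h1, (ih m).2 ⟨m', h3, h4⟩⟩

theorem DG_term (n : ℕ) (w : List (A1 β)) (v : List (S1 β ν)) :
    DG n (w.map Sum.inl) v ↔ v = w.map Sum.inl := by
  induction n generalizing v with
  | zero => exact Iff.rfl
  | succ n ih =>
    constructor
    · rintro ⟨m, h1, h2⟩
      rw [step_inl w m gtab (fun b => rfl)] at h1
      subst h1
      exact (ih v).1 h2
    · rintro rfl
      exact ⟨_, (step_inl w _ gtab (fun b => rfl)).2 rfl, (ih _).2 rfl⟩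

/-- the terminal words derived in `n` steps -/
def YN (n : ℕ) (u : List (S1 β ν)) : Set (List (A1 β)) := {x | DG n u (x.map Sum.inl)}

/-- the terminal words derived with the grammar table -/
def Y (u : List (S1 β ν)) : Set (List (A1 β)) := {x | ∃ n, x ∈ YN n u}

theorem YN_append (n : ℕ) (u u' : List (S1 β ν)) (x : List (A1 β)) :
    x ∈ YN n (u ++ u') ↔ ∃ y z, x = y ++ z ∧ y ∈ YN n u ∧ z ∈ YN n u' := by
  constructor
  · intro h
    obtain ⟨a, b, h1, h2, h3⟩ := (DG_append n u u' _).1 h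
    obtain ⟨y, z, rfl, rfl, rfl⟩ := List.map_eq_append_iff.1 h1
    exact ⟨y, z, rfl, h2, h3⟩
  · rintro ⟨y, z, rfl, h1, h2⟩
    exact (DG_append n u u' _).2 ⟨_, _, List.map_append, h1, h2⟩

theorem YN_term (n : ℕ) (w x : List (A1 β)) : x ∈ YN n (w.map Sum.inl : List (S1 β ν)) ↔ x = w := by
  show DG n (w.map Sum.inl : List (S1 β ν)) (x.map Sum.inl) ↔ _
  rw [DG_term]
  constructor
  · intro h
    exact List.map_injective_iff.2 Sum.inl_injective h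
  · rintro rfl
    rfl

theorem YN_tm (n : ℕ) (a : A1 β) (u : List (S1 β ν)) (x : List (A1 β)) :
    x ∈ YN n (tm a :: u) ↔ ∃ x', x = a :: x' ∧ x' ∈ YN n u := by
  have h : (tm a :: u : List (S1 β ν)) = [a].map Sum.inl ++ u := rfl
  rw [h, YN_append]
  constructor
  · rintro ⟨y, z, rfl, h1, h2⟩
    rw [YN_term] at h1
    subst h1
    exact ⟨z, rfl, h2⟩
  · rintro ⟨x', rfl, h1⟩
    exact ⟨[a], x', rfl, (YN_term n [a] [a]).2 rfl, h1⟩

theorem YN_nil (n : ℕ) (x : List (A1 β)) : x ∈ YN n ([] : List (S1 β ν)) ↔ x = [] :=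
  YN_term n [] x

theorem YN_succ (n : ℕ) (s : S1 β ν) (x : List (A1 β)) :
    x ∈ YN (n + 1) [s] ↔ ∃ r ∈ gtab s, x ∈ YN n r := by
  constructor
  · rintro ⟨m, h1, h2⟩
    rw [step_single] at h1
    exact ⟨m, h1, h2⟩
  · rintro ⟨r, h1, h2⟩
    exact ⟨r, (step_single _ _ _).2 h1, h2⟩

theorem YN_zero (s : N1 β ν) (x : List (A1 β)) : x ∉ YN 0 ([Sum.inr s] : List (S1 β ν)) := by
  intro h
  have h' : x.map Sum.inl = ([Sum.inr s] : List (S1 β ν)) := h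
  cases x with
  | nil => simp at h'
  | cons a x => simp at h'

theorem YN_mono {n m : ℕ} (hnm : n ≤ m) {u : List (S1 β ν)} {x : List (A1 β)} (h : x ∈ YN n u) :
    x ∈ YN m u := by
  obtain ⟨k, rfl⟩ := Nat.exists_eq_add_of_le hnm
  exact (DG_add n k u _).2 ⟨_, h, (DG_term k x _).2 rfl⟩

theorem Y_append (u u' : List (S1 β ν)) (x : List (A1 β)) :
    x ∈ Y (u ++ u') ↔ ∃ y z, x = y ++ z ∧ y ∈ Y u ∧ z ∈ Y u' := by
  constructor
  · rintro ⟨n, h⟩
    obtain ⟨y, z, h1, h2, h3⟩ := (YN_append n u u' x).1 h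
    exact ⟨y, z, h1, ⟨n, h2⟩, ⟨n, h3⟩⟩
  · rintro ⟨y, z, rfl, ⟨n, h1⟩, ⟨m, h2⟩⟩
    exact ⟨max n m, (YN_append _ _ _ _).2 ⟨y, z, rfl, YN_mono (le_max_left _ _) h1,
      YN_mono (le_max_right _ _) h2⟩⟩

theorem Y_tm (a : A1 β) (u : List (S1 β ν)) (x : List (A1 β)) :
    x ∈ Y (tm a :: u) ↔ ∃ x', x = a :: x' ∧ x' ∈ Y u := by
  constructor
  · rintro ⟨n, h⟩
    obtain ⟨x', h1, h2⟩ := (YN_tm n a u x).1 h
    exact ⟨x', h1, n, h2⟩
  · rintro ⟨x', h1, n, h2⟩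
    exact ⟨n, (YN_tm n a u x).2 ⟨x', h1, h2⟩⟩

theorem Y_nil (x : List (A1 β)) : x ∈ Y ([] : List (S1 β ν)) ↔ x = [] :=
  ⟨fun ⟨n, h⟩ => (YN_nil n x).1 h, fun h => ⟨0, (YN_nil 0 x).2 h⟩⟩

theorem Y_step {u m : List (S1 β ν)} (h : Step gtab u m) {x : List (A1 β)} (hx : x ∈ Y m) :
    x ∈ Y u := by
  obtain ⟨n, hn⟩ := hx
  exact ⟨n + 1, m, h, hn⟩

theorem Y_rule {s : S1 β ν} {r : List (S1 β ν)} (h : r ∈ gtab s) {x : List (A1 β)}
    (hx : x ∈ Y r) : x ∈ Y [s] := Y_step ((step_single _ _ _).2 h) hx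

theorem Y_dd (x : List (A1 β)) : x ∉ Y ([ex dd] : List (S1 β ν)) := by
  rintro ⟨n, hn⟩
  induction n with
  | zero => exact YN_zero _ _ hn
  | succ n ih =>
    obtain ⟨r, h1, h2⟩ := (YN_succ n _ x).1 hn
    have h1' : r = [ex dd] := h1
    subst h1'
    exact ih h2

/-! ### the words of the nonterminals -/

theorem ee_of {n : ℕ} {x : List (A1 β)} (h : x ∈ YN n ([ex ee] : List (S1 β ν))) :
    ∃ N, mk bar ∉ N ∧ x = N ++ [mk bar] := by
  induction n generalizing x with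
  | zero => exact absurd h (YN_zero _ _)
  | succ n ih =>
    obtain ⟨r, h1, h2⟩ := (YN_succ n _ x).1 h
    rcases h1 with rfl | rfl | ⟨a, ha, rfl⟩
    · exact ih h2
    · obtain ⟨x', rfl, h3⟩ := (YN_tm _ _ _ _).1 h2
      rw [YN_nil] at h3
      exact ⟨[], by simp, by rw [h3]; rfl⟩
    · obtain ⟨x', rfl, h3⟩ := (YN_tm _ _ _ _).1 h2
      obtain ⟨N, h4, rfl⟩ := ih h3
      exact ⟨a :: N, by simp only [List.mem_cons, not_or]; exact ⟨fun h => ha h.symm, h4⟩, rfl⟩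

theorem ee_mem (N : List (A1 β)) (h : mk bar ∉ N) :
    N ++ [mk bar] ∈ Y ([ex ee] : List (S1 β ν)) := by
  induction N with
  | nil =>
    exact Y_rule (Or.inr (Or.inl rfl)) ((Y_tm _ _ _).2 ⟨[], rfl, (Y_nil _).2 rfl⟩)
  | cons a N ih =>
    simp only [List.mem_cons, not_or] at h
    exact Y_rule (Or.inr (Or.inr ⟨a, fun h' => h.1 h'.symm, rfl⟩))
      ((Y_tm _ _ _).2 ⟨_, rfl, ih h.2⟩)

theorem bb_of {n : ℕ} {x : List (A1 β)} (h : x ∈ YN n ([ex bb] : List (S1 β ν))) :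
    ∃ N, mk bar ∉ N ∧ x = N ++ [mk lt] := by
  induction n generalizing x with
  | zero => exact absurd h (YN_zero _ _)
  | succ n ih =>
    obtain ⟨r, h1, h2⟩ := (YN_succ n _ x).1 h
    rcases h1 with rfl | rfl | ⟨a, ha, rfl⟩
    · exact ih h2
    · obtain ⟨x', rfl, h3⟩ := (YN_tm _ _ _ _).1 h2
      rw [YN_nil] at h3
      exact ⟨[], by simp, by rw [h3]; rfl⟩
    · obtain ⟨x', rfl, h3⟩ := (YN_tm _ _ _ _).1 h2
      obtain ⟨N, h4, rfl⟩ := ih h3
      exact ⟨a :: N, by simp only [List.mem_cons, not_or]; exact ⟨fun h => ha h.symm, h4⟩, rfl⟩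

theorem bb_mem (N : List (A1 β)) (h : mk bar ∉ N) :
    N ++ [mk lt] ∈ Y ([ex bb] : List (S1 β ν)) := by
  induction N with
  | nil =>
    exact Y_rule (Or.inr (Or.inl rfl)) ((Y_tm _ _ _).2 ⟨[], rfl, (Y_nil _).2 rfl⟩)
  | cons a N ih =>
    simp only [List.mem_cons, not_or] at h
    exact Y_rule (Or.inr (Or.inr ⟨a, fun h' => h.1 h'.symm, rfl⟩))
      ((Y_tm _ _ _).2 ⟨_, rfl, ih h.2⟩)

theorem cs_succ (j : ℕ) : (cs (j + 1) : List (A1 β)) = mk cc :: cs j := rfl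

theorem cs_succ' (j : ℕ) : (cs (j + 1) : List (A1 β)) = cs j ++ [mk cc] := by
  simp [cs, List.replicate_succ']

theorem cc_cs (j : ℕ) (X : List (A1 β)) : cs j ++ (mk cc :: X) = mk cc :: (cs j ++ X) := by
  induction j with
  | zero => rfl
  | succ j ih =>
    rw [cs_succ, List.cons_append, ih, List.cons_append]

theorem kk_of {n : ℕ} {x : List (A1 β)} (h : x ∈ YN n ([ex kk] : List (S1 β ν))) :
    ∃ j N₁ N₂, mk bar ∉ N₁ ∧ mk bar ∉ N₂ ∧
      x = cs j ++ (mk gt :: (N₁ ++ (mk bar :: (N₂ ++ (mk lt :: cs j))))) := by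
  induction n generalizing x with
  | zero => exact absurd h (YN_zero _ _)
  | succ n ih =>
    obtain ⟨r, h1, h2⟩ := (YN_succ n _ x).1 h
    rcases h1 with rfl | rfl | rfl
    · exact ih h2
    · obtain ⟨x', rfl, h3⟩ := (YN_tm _ _ _ _).1 h2
      rw [← List.singleton_append, YN_append] at h3
      obtain ⟨y, z, rfl, h4, h5⟩ := h3
      obtain ⟨j, N₁, N₂, h6, h7, rfl⟩ := ih h4
      obtain ⟨z', rfl, h8⟩ := (YN_tm _ _ _ _).1 h5
      rw [YN_nil] at h8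
      subst h8
      refine ⟨j + 1, N₁, N₂, h6, h7, ?_⟩
      simp [cs_succ', cc_cs]
    · obtain ⟨x', rfl, h3⟩ := (YN_tm _ _ _ _).1 h2
      rw [← List.singleton_append, YN_append] at h3
      obtain ⟨y, z, rfl, h4, h5⟩ := h3
      obtain ⟨N₁, h6, rfl⟩ := ee_of h4
      obtain ⟨N₂, h7, rfl⟩ := bb_of h5
      refine ⟨0, N₁, N₂, h6, h7, ?_⟩
      simp [cs]

theorem kk_mem (j : ℕ) (N₁ N₂ : List (A1 β)) (h₁ : mk bar ∉ N₁) (h₂ : mk bar ∉ N₂) :
    cs j ++ (mk gt :: (N₁ ++ (mk bar :: (N₂ ++ (mk lt :: cs j))))) ∈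
      Y ([ex kk] : List (S1 β ν)) := by
  induction j with
  | zero =>
    refine Y_rule (s := ex kk) (r := [tm (mk gt), ex ee, ex bb]) (Or.inr (Or.inr rfl))
      ((Y_tm _ _ _).2 ⟨N₁ ++ (mk bar :: (N₂ ++ [mk lt])), by simp [cs], ?_⟩)
    rw [← List.singleton_append, Y_append]
    exact ⟨N₁ ++ [mk bar], N₂ ++ [mk lt], by simp, ee_mem N₁ h₁, bb_mem N₂ h₂⟩
  | succ j ih =>
    refine Y_rule (s := ex kk) (r := [tm (mk cc), ex kk, tm (mk cc)]) (Or.inr (Or.inl rfl))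
      ((Y_tm _ _ _).2 ⟨(cs j ++ (mk gt :: (N₁ ++ (mk bar :: (N₂ ++ (mk lt :: cs j)))))) ++
        [mk cc], ?_, ?_⟩)
    · simp [cs_succ', cc_cs]
    · rw [← List.singleton_append, Y_append]
      exact ⟨_, [mk cc], rfl, ih, (Y_tm _ _ _).2 ⟨[], rfl, (Y_nil _).2 rfl⟩⟩

theorem jj_after {n : ℕ} {y : List (A1 β)} (h : y ∈ YN n ([ex jj] : List (S1 β ν)))
    {v : List β} {z : List (A1 β)} (hz : After v z) : After v (y ++ z) := by
  induction n generalizing y with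
  | zero => exact absurd h (YN_zero _ _)
  | succ n ih =>
    obtain ⟨r, h1, h2⟩ := (YN_succ n _ y).1 h
    rcases h1 with rfl | rfl | rfl
    · exact ih h2
    · rw [YN_nil] at h2
      subst h2
      exact hz
    · obtain ⟨x', rfl, h3⟩ := (YN_tm _ _ _ _).1 h2
      rw [← List.singleton_append, YN_append] at h3
      obtain ⟨k, x'', rfl, h4, h5⟩ := h3
      obtain ⟨j, N₁, N₂, h6, h7, rfl⟩ := kk_of h4
      obtain ⟨y', rfl, h8⟩ := (YN_tm _ _ _ _).1 h5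
      have h9 := After.jump (j := j) h6 h7 (ih h8)
      simpa using h9

/-- the image of a letter -/
def fa (a : β) : List (S1 β ν) := [tm (Sum.inl a), ex jj]

def P0 : List (S1 β ν) := [ex bb, tm (mk st), tm (mk m1), ex jj]

def Q0 : List (S1 β ν) := [tm (mk m2), tm (mk en), tm (mk gt), ex ee]

theorem Y_jj_nil : ([] : List (A1 β)) ∈ Y ([ex jj] : List (S1 β ν)) :=
  Y_rule (s := ex jj) (r := []) (Or.inr (Or.inl rfl)) ((Y_nil _).2 rfl)

theorem after_of_Y (v : List β) (x : List (A1 β))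
    (h : x ∈ Y ([ex jj] ++ (v.flatMap fa ++ Q0) : List (S1 β ν))) : After v x := by
  induction v generalizing x with
  | nil =>
    rw [Y_append] at h
    obtain ⟨y, z, rfl, ⟨n, h1⟩, h2⟩ := h
    refine jj_after h1 ?_
    rw [List.flatMap_nil, List.nil_append] at h2
    unfold Q0 at h2
    obtain ⟨z1, rfl, h3⟩ := (Y_tm _ _ _).1 h2
    obtain ⟨z2, rfl, h4⟩ := (Y_tm _ _ _).1 h3
    obtain ⟨z3, rfl, m, h5⟩ := (Y_tm _ _ _).1 h4
    obtain ⟨N, h6, rfl⟩ := ee_of h5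
    exact After.stop h6
  | cons a v ih =>
    rw [Y_append] at h
    obtain ⟨y, z, rfl, ⟨n, h1⟩, h2⟩ := h
    refine jj_after h1 ?_
    rw [List.flatMap_cons, List.append_assoc] at h2
    unfold fa at h2
    rw [List.cons_append] at h2
    obtain ⟨z1, rfl, h3⟩ := (Y_tm _ _ _).1 h2
    exact After.letter (ih z1 h3)

theorem Y_of_after (v : List β) (x : List (A1 β)) (h : After v x) :
    x ∈ Y ([ex jj] ++ (v.flatMap fa ++ Q0) : List (S1 β ν)) := by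
  induction h with
  | @letter a v x h ih =>
    rw [Y_append]
    refine ⟨[], _, rfl, Y_jj_nil, ?_⟩
    rw [List.flatMap_cons, List.append_assoc]
    show _ ∈ Y (tm (Sum.inl a) :: ([ex jj] ++ (v.flatMap fa ++ Q0)))
    exact (Y_tm _ _ _).2 ⟨x, rfl, ih⟩
  | @jump j N₁ N₂ v x hN₁ hN₂ h ih =>
    rw [Y_append] at ih ⊢
    obtain ⟨y, z, rfl, h1, h2⟩ := ih
    refine ⟨mk m2 :: (cs j ++ (mk gt :: (N₁ ++ (mk bar :: (N₂ ++ (mk lt :: cs j)))))) ++
      (mk m1 :: y), z, by simp, ?_, h2⟩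
    refine Y_rule (s := ex jj) (r := [tm (mk m2), ex kk, tm (mk m1), ex jj]) (Or.inr (Or.inr rfl))
      ((Y_tm _ _ _).2 ⟨_, rfl, ?_⟩)
    rw [← List.singleton_append, Y_append]
    exact ⟨_, _, rfl, kk_mem j N₁ N₂ hN₁ hN₂, (Y_tm _ _ _).2 ⟨y, rfl, h1⟩⟩
  | @stop N hN =>
    rw [Y_append]
    refine ⟨[], _, rfl, Y_jj_nil, ?_⟩
    rw [List.flatMap_nil, List.nil_append]
    exact (Y_tm _ _ _).2 ⟨_, rfl, (Y_tm _ _ _).2 ⟨_, rfl, (Y_tm _ _ _).2 ⟨_, rfl, ee_mem N hN⟩⟩⟩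

theorem Y_word (v : List β) (x : List (A1 β)) :
    x ∈ Y (P0 ++ (v.flatMap fa ++ Q0) : List (S1 β ν)) ↔
      ∃ N x', mk bar ∉ N ∧ x = N ++ (mk lt :: mk st :: mk m1 :: x') ∧ After v x' := by
  have e : (P0 ++ (v.flatMap fa ++ Q0) : List (S1 β ν)) =
      [ex bb] ++ (tm (mk st) :: tm (mk m1) :: ([ex jj] ++ (v.flatMap fa ++ Q0))) := rfl
  rw [e, Y_append]
  constructor
  · rintro ⟨y, z, rfl, ⟨n, h1⟩, h2⟩
    obtain ⟨N, h3, rfl⟩ := bb_of h1
    obtain ⟨z1, rfl, h4⟩ := (Y_tm _ _ _).1 h2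
    obtain ⟨z2, rfl, h5⟩ := (Y_tm _ _ _).1 h4
    exact ⟨N, z2, h3, by simp, after_of_Y v z2 h5⟩
  · rintro ⟨N, x', h1, rfl, h2⟩
    exact ⟨N ++ [mk lt], _, by simp, bb_mem N h1, (Y_tm _ _ _).2 ⟨_, rfl, (Y_tm _ _ _).2
      ⟨_, rfl, Y_of_after v x' h2⟩⟩⟩

end Pool.Agent.KS6_13.EH
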